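import Pool.Agent.H97.Bun.StatU

/-!
# Rank two: the involution preserves the weights; antisymmetric functions are balanced

Module of `MP_644d19_co` (balanced functions).

`wt_tau`: `μ ∘ τ` is stationary: reindex the sum over `p` by `τ` (`Function.Involutive.toPerm`,
`Equiv.sum_comp`): `∑ p, ∑ e, if s e = σ p ∧ a p e = q then pr e * μ (τ p) else 0` is
`∑ p, ∑ e, if s e = σ (τ p) ∧ a (τ p) e = q then pr e * μ p else 0`, and for a valid letter
`a (τ p) e = τ (a p e)`, so the condition is `s e = σ p ∧ a p e = τ q`: the sum is `μ (τ q)`.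
By `stat_unique` `μ (τ p) = c * μ p` for all `p`, applied twice `c * c = 1`, `c = 1`. `mass` only
depends on the type.

`anti_mean`: for `g (τ p) = - g p` (all `p` of type `j`) the mean over the fibre of `j` is its own
negative: reindex by `τ`.

`anti_bal`: `f (τ z) = - f z` for all `z`; `run a (τ p) w = τ (run a p w)` for valid `w`
(induction), then `anti_mean`.
-/

set_option autoImplicit false

namespace Pool.Agent.H97.Bun

open Pool.Agent.H75.Bunchy Pool.Agent.H26.Bunchy
open scoped Classical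

variable {V K E : Type*} [Fintype V] [Fintype E] {s t : E → K} {σ : V → K} {a : V → E → V}
  {e1 e2 : E} {pr : E → ℝ} {μ : V → ℝ} {τ : V → V}

lemma wt_tau (ha : Typed s t σ a) (hcn : Conn s σ a) (h : Stat s σ a pr μ)
    (h1 : ∀ p, τ (τ p) = p) (h3 : ∀ p, σ (τ p) = σ p)
    (h4 : ∀ p e, s e = σ p → a (τ p) e = τ (a p e)) (p : V) : wt σ μ (τ p) = wt σ μ p := by
  have hinj : Function.Injective τ := (show Function.Involutive τ from h1).injective
  have hst : Stat s σ a pr (fun p => μ (τ p)) := by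
    refine ⟨h.pr_pos, fun p => h.mu_pos _, fun q => ?_⟩
    have h5 := h.stat (τ q)
    rw [← Equiv.sum_comp (Function.Involutive.toPerm τ h1)
      (fun p => ∑ e, if s e = σ p ∧ a p e = τ q then pr e * μ p else 0)] at h5
    rw [← h5]
    refine Finset.sum_congr rfl fun r _ => Finset.sum_congr rfl fun e _ => ?_
    have h6 : (s e = σ r ∧ a r e = q) ↔ (s e = σ (τ r) ∧ a (τ r) e = τ q) := by
      rw [h3 r]
      refine and_congr_right fun he => ?_
      rw [h4 r e he, hinj.eq_iff]
    exact if_congr h6 rfl rfl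
  have : Nonempty V := ⟨p⟩
  obtain ⟨c, hc, hcμ⟩ := stat_unique hcn h hst
  have h7 : c * c = 1 := by
    have e1 : μ (τ (τ p)) = c * μ (τ p) := hcμ (τ p)
    have e2 : μ (τ p) = c * μ p := hcμ p
    rw [h1 p, e2] at e1
    have e3 := h.mu_pos p
    have e4 : (c * c - 1) * μ p = 0 := by linarith
    rcases mul_eq_zero.1 e4 with e5 | e5
    · linarith
    · exact absurd e5 e3.ne'
  have h8 : c = 1 := by nlinarith
  unfold wt
  rw [h3 p]
  have e2 : μ (τ p) = c * μ p := hcμ p
  rw [e2, h8, one_mul]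

omit [Fintype V] [Fintype E] in
lemma run_tau (ha : Typed s t σ a) (h4 : ∀ p e, s e = σ p → a (τ p) e = τ (a p e))
    (w : List E) (p : V) (hw : Valid s t (σ p) w) : run a (τ p) w = τ (run a p w) := by
  induction w generalizing p with
  | nil => rfl
  | cons e w ih =>
    obtain ⟨he, hw⟩ := hw
    rw [run_cons, run_cons, h4 p e he]
    exact ih (a p e) (by rw [ha p e he]; exact hw)

omit [Fintype E] in
lemma anti_mean (h1 : ∀ p, τ (τ p) = p) (h3 : ∀ p, σ (τ p) = σ p)
    (hwt : ∀ p, wt σ μ (τ p) = wt σ μ p) {j : K} {g : V → ℝ}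
    (hg : ∀ p, σ p = j → g (τ p) = - g p) : mean σ μ j g = 0 := by
  have h5 : mean σ μ j g = - mean σ μ j g := by
    conv_lhs => unfold mean
    rw [← Equiv.sum_comp (Function.Involutive.toPerm τ h1)
      (fun p => if σ p = j then wt σ μ p * g p else 0)]
    unfold mean
    rw [← Finset.sum_neg_distrib]
    refine Finset.sum_congr rfl fun p _ => ?_
    change (if σ (τ p) = j then wt σ μ (τ p) * g (τ p) else 0) = _
    rw [h3 p, hwt p]
    by_cases hp : σ p = j
    · rw [if_pos hp, if_pos hp, hg p hp]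
      ring
    · rw [if_neg hp, if_neg hp, neg_zero]
  linarith

lemma anti_bal (hs : s e1 = s e2) (ht : t e1 = t e2) (ha : Typed s t σ a) (hcn : Conn s σ a)
    (h : Stat s σ a pr μ) (h1 : ∀ p, τ (τ p) = p) (h3 : ∀ p, σ (τ p) = σ p)
    (h4 : ∀ p e, s e = σ p → a (τ p) e = τ (a p e)) {k : K} {u : List E} (hu : Valid s t k u)
    {f : V → ℝ} (hf : ∀ z, f (τ z) = - f z) : Bal s t σ a μ e1 e2 k u f 0 := by
  intro j v u' _ hv hfin hhyb
  refine anti_mean h1 h3 (fun p => wt_tau ha hcn h h1 h3 h4 p) fun p hp => ?_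
  have hval : Valid s t (σ p) (v ++ u') := by
    rw [hp, valid_append, hfin]
    exact ⟨hv, (hhyb.valid hs ht).1.2 hu⟩
  rw [run_tau ha h4 _ p hval, hf]

end Pool.Agent.H97.Bun
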