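import Pool.Agent.H97.Bun.Defs

/-!
# Rank two: the partner involution

Module of `MP_644d19_co` (balanced functions).

Let `rank = 2` and let there be no stable pair. Every state `p` lies in a minimal image `C`
(`exists_FC`), `C.ncard = 2`, so `C = {p, q}`, `q ≠ p`. Such `q` is unique: if `{p, q}`, `{p, q'}`
are minimal images and `q ≠ q'`, then `stable_of_swap` with `Z = {p}`, `x = q`, `y = q'`
(`IsFC.deadSet`, `IsFC.type`) gives a stable pair `(q, q')`, so `q = q'`. `τ p` is this `q`.
`τ (τ p) = p`: the same set. `σ (τ p) = σ p`: `IsFC.type`. For a valid letter the image of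
`{p, τ p}` under `[e]` is a minimal image (`IsFC.image`), it is `{a p e, a (τ p) e}`, of two
elements, so `a (τ p) e = τ (a p e)` by uniqueness.
-/

set_option autoImplicit false

namespace Pool.Agent.H97.Bun

open Pool.Agent.H75.Bunchy Pool.Agent.H26.Bunchy
open scoped Classical

variable {V K E : Type*} [Fintype V] {s t : E → K} {σ : V → K} {a : V → E → V}

/-- two minimal images with a common element -/
lemma partner_unique (ha : Typed s t σ a) (hcn : Conn s σ a) (hno : NoStable s t σ a)
    (hr : rank s t σ a = 2) {p q q' : V} (hq : q ≠ p) (hq' : q' ≠ p)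
    (h : IsFC s t σ a {p, q}) (h' : IsFC s t σ a {p, q'}) : q = q' := by
  refine hno q q' (stable_of_swap ha hcn (Z := {p}) (x := q) (y := q') ?_ ?_ ?_ ?_ ?_ ?_)
  · simpa using hq
  · simpa using hq'
  · have e1 : σ q = σ p := h.type ha (by simp) (by simp)
    have e2 : σ q' = σ p := h'.type ha (by simp) (by simp)
    rw [e1, e2]
  · have e1 := h.deadSet ha
    rw [Set.pair_comm] at e1
    exact e1
  · have e1 := h'.deadSet ha
    rw [Set.pair_comm] at e1
    exact e1
  · rw [hr]
    exact Set.ncard_pair hq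

/-- the partner involution -/
theorem exists_tau (ha : Typed s t σ a) (hcn : Conn s σ a) (hno : NoStable s t σ a)
    (hr : rank s t σ a = 2) : ∃ τ : V → V, (∀ p, τ (τ p) = p) ∧ (∀ p, τ p ≠ p) ∧
      (∀ p, σ (τ p) = σ p) ∧ ∀ p e, s e = σ p → a (τ p) e = τ (a p e) := by
  have hex : ∀ p, ∃ q, q ≠ p ∧ IsFC s t σ a {p, q} := by
    intro p
    obtain ⟨C, hC, hp⟩ := exists_FC ha hcn p
    have hC2 : C.ncard = 2 := by
      obtain ⟨_, _, _, _, h⟩ := hC
      rw [h, hr]
    obtain ⟨x, y, hxy, rfl⟩ := Set.ncard_eq_two.1 hC2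
    rcases hp with rfl | hp
    · exact ⟨y, hxy.symm, hC⟩
    · rw [Set.mem_singleton_iff] at hp
      subst hp
      refine ⟨x, hxy, ?_⟩
      rw [Set.pair_comm]
      exact hC
  choose τ hτ1 hτ2 using hex
  refine ⟨τ, fun p => ?_, hτ1, fun p => ?_, fun p e he => ?_⟩
  · have h2 := hτ2 p
    rw [Set.pair_comm] at h2
    exact partner_unique ha hcn hno hr (hτ1 (τ p)) (hτ1 p).symm (hτ2 (τ p)) h2
  · exact (hτ2 p).type ha (by simp) (by simp)
  · have hv : Valid s t (σ p) [e] := ⟨he, trivial⟩
    have h1 := (hτ2 p).image ha (x := p) (by simp) hv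
    rw [Set.image_pair] at h1
    have h2 : Dead s t σ a p (τ p) :=
      (hτ2 p).deadSet ha p (by simp) (τ p) (by simp) (hτ1 p).symm
    have h3 : a (τ p) e ≠ a p e := fun h => h2.2 [e] hv h.symm
    exact partner_unique ha hcn hno hr h3 (hτ1 (a p e)) h1 (hτ2 (a p e))

end Pool.Agent.H97.Bun
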