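import Pool.Agent.H26.Bunchy.Bound

/-!
# Balanced functions of a typed automaton

Definitions for the dimension argument (`MP_644d19_co`, the bunchy factor conjecture). Typed
automata `s t : E → K`, `σ : V → K`, `a : V → E → V` are as in `H75/Bunchy/Aut`; two parallel
letters `e1`, `e2` are fixed and `flip e1 e2 {x} a` is the automaton in which they are exchanged at
the state `x`.
-/

set_option autoImplicit false

namespace Pool.Agent.H97.Bun

open Pool.Agent.H75.Bunchy Pool.Agent.H26.Bunchy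
open scoped Classical

section
variable {V K E : Type*} [Fintype V] [Fintype E]

/-- the weighted mean of `f` over the states of type `k` (the relative weights have sum `1`) -/
noncomputable def mean (σ : V → K) (μ : V → ℝ) (k : K) (f : V → ℝ) : ℝ :=
  ∑ p, if σ p = k then wt σ μ p * f p else 0

/-- `u'` arises from `u` by exchanging `e1` and `e2` at some places -/
def Hyb (e1 e2 : E) (u u' : List E) : Prop :=
  List.Forall₂ (fun e f => f = e ∨ f = Equiv.swap e1 e2 e) u u'

/-- end states of the words `u'` that arise from `u` in this way, from all states of type `k` -/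
def ends (σ : V → K) (a : V → E → V) (e1 e2 : E) (k : K) (u : List E) : Set V :=
  {z | ∃ p u', σ p = k ∧ Hyb e1 e2 u u' ∧ run a p u' = z}

/-- `f` has the same mean `c` after all words `v ++ u'` -/
def Bal (s t : E → K) (σ : V → K) (a : V → E → V) (μ : V → ℝ) (e1 e2 : E) (k : K) (u : List E)
    (f : V → ℝ) (c : ℝ) : Prop :=
  ∀ (j : K) (v u' : List E), (∃ p, σ p = j) → Valid s t j v → fin t j v = k → Hyb e1 e2 u u' →
    mean σ μ j (fun p => f (run a p (v ++ u'))) = c

/-- the congruence generated by `(y, y')` identifies all states of the same type -/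
def Total (s : E → K) (σ : V → K) (a : V → E → V) (y y' : V) : Prop :=
  ∀ R : V → V → Prop, Equivalence R → (∀ p q, R p q → σ p = σ q) →
    (∀ p q e, R p q → s e = σ p → R (a p e) (a q e)) → R y y' → ∀ p q, σ p = σ q → R p q

/-- a function on a set of states, extended by `0` -/
noncomputable def ext (X : Set V) (g : X → ℝ) (z : V) : ℝ := if h : z ∈ X then g ⟨z, h⟩ else 0

omit [Fintype V] in
lemma ext_add (X : Set V) (g h : X → ℝ) (z : V) : ext X (g + h) z = ext X g z + ext X h z := by
  unfold ext; split_ifs <;> simp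

omit [Fintype V] in
lemma ext_smul (X : Set V) (r : ℝ) (g : X → ℝ) (z : V) : ext X (r • g) z = r * ext X g z := by
  unfold ext; split_ifs <;> simp

omit [Fintype V] in
lemma ext_zero (X : Set V) (z : V) : ext X (0 : X → ℝ) z = 0 := by
  unfold ext; split_ifs <;> simp

lemma mean_add (σ : V → K) (μ : V → ℝ) (k : K) (f g : V → ℝ) :
    mean σ μ k (fun p => f p + g p) = mean σ μ k f + mean σ μ k g := by
  unfold mean
  rw [← Finset.sum_add_distrib]
  refine Finset.sum_congr rfl fun p _ => ?_
  split_ifs <;> ring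

lemma mean_smul (σ : V → K) (μ : V → ℝ) (k : K) (r : ℝ) (f : V → ℝ) :
    mean σ μ k (fun p => r * f p) = r * mean σ μ k f := by
  unfold mean
  rw [Finset.mul_sum]
  refine Finset.sum_congr rfl fun p _ => ?_
  split_ifs <;> ring

lemma mean_congr {σ : V → K} {μ : V → ℝ} {k : K} {f g : V → ℝ} (h : ∀ p, σ p = k → f p = g p) :
    mean σ μ k f = mean σ μ k g := by
  unfold mean
  refine Finset.sum_congr rfl fun p _ => ?_
  split_ifs with hp
  · rw [h p hp]
  · rfl

lemma mean_const {σ : V → K} {μ : V → ℝ} (hμ : ∀ p, 0 < μ p) {k : K} (hk : ∃ p, σ p = k)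
    (c : ℝ) : mean σ μ k (fun _ => c) = c := by
  obtain ⟨p, rfl⟩ := hk
  have h := sum_wt_fibre (σ := σ) hμ p
  rw [Finset.sum_filter] at h
  unfold mean
  conv_rhs => rw [← one_mul c, ← h, Finset.sum_mul]
  refine Finset.sum_congr rfl fun q _ => ?_
  split_ifs <;> ring

lemma mean_sub (σ : V → K) (μ : V → ℝ) (k : K) (f g : V → ℝ) :
    mean σ μ k (fun p => f p - g p) = mean σ μ k f - mean σ μ k g := by
  unfold mean
  rw [← Finset.sum_sub_distrib]
  refine Finset.sum_congr rfl fun p _ => ?_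
  split_ifs <;> ring

lemma mean_nonneg {σ : V → K} {μ : V → ℝ} (hμ : ∀ p, 0 < μ p) {k : K} {f : V → ℝ}
    (hf : ∀ p, σ p = k → 0 ≤ f p) : 0 ≤ mean σ μ k f := by
  unfold mean
  refine Finset.sum_nonneg fun p _ => ?_
  split_ifs with hp
  · exact mul_nonneg (wt_pos hμ p).le (hf p hp)
  · exact le_rfl

lemma mean_pos {σ : V → K} {μ : V → ℝ} (hμ : ∀ p, 0 < μ p) {k : K} {f : V → ℝ}
    (hf : ∀ p, σ p = k → 0 ≤ f p) {q : V} (hq : σ q = k) (hfq : 0 < f q) :
    0 < mean σ μ k f := by
  unfold mean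
  refine Finset.sum_pos' (fun p _ => ?_) ⟨q, Finset.mem_univ _, ?_⟩
  · split_ifs with hp
    · exact mul_nonneg (wt_pos hμ p).le (hf p hp)
    · exact le_rfl
  · rw [if_pos hq]
    exact mul_pos (wt_pos hμ q) hfq

/-- the mean of a function supported at one state -/
lemma mean_single {σ : V → K} {μ : V → ℝ} {x : V} {f : V → ℝ}
    (hf : ∀ p, σ p = σ x → p ≠ x → f p = 0) : mean σ μ (σ x) f = wt σ μ x * f x := by
  unfold mean
  rw [Finset.sum_eq_single x]
  · rw [if_pos rfl]
  · intro p _ hp
    split_ifs with h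
    · rw [hf p h hp, mul_zero]
    · rfl
  · intro h; exact absurd (Finset.mem_univ _) h

/-- the space of functions on `X` whose extension is balanced -/
noncomputable def Nsp (s t : E → K) (σ : V → K) (a : V → E → V) (μ : V → ℝ) (e1 e2 : E) (k : K)
    (u : List E) (X : Set V) : Submodule ℝ (X → ℝ) where
  carrier := {g | ∃ c, Bal s t σ a μ e1 e2 k u (ext X g) c}
  add_mem' := by
    rintro g h ⟨c, hc⟩ ⟨d, hd⟩
    refine ⟨c + d, fun j v u' hj hv hf hu => ?_⟩
    rw [← hc j v u' hj hv hf hu, ← hd j v u' hj hv hf hu, ← mean_add]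
    exact mean_congr fun p _ => ext_add X g h _
  zero_mem' := by
    refine ⟨0, fun j v u' hj hv hf hu => ?_⟩
    have h1 : mean σ μ j (fun _ => (0 : ℝ)) = 0 := by
      have := mean_smul σ μ j 0 (fun _ => (0 : ℝ))
      simpa using this
    rw [← h1]
    exact mean_congr fun p _ => ext_zero X _
  smul_mem' := by
    rintro r g ⟨c, hc⟩
    refine ⟨r * c, fun j v u' hj hv hf hu => ?_⟩
    rw [← hc j v u' hj hv hf hu, ← mean_smul]
    exact mean_congr fun p _ => ext_smul X r g _

end

section Hybrid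
variable {V K E : Type*} {s t : E → K} {e1 e2 : E}

lemma Hyb.nil_left {u' : List E} (h : Hyb e1 e2 [] u') : u' = [] := by
  cases h; rfl

lemma hyb_refl (u : List E) : Hyb e1 e2 u u := by
  unfold Hyb
  exact List.forall₂_same.2 fun e _ => Or.inl rfl

lemma hyb_cons {e : E} {u u' : List E} : Hyb e1 e2 (e :: u) u' ↔
    ∃ f v', (f = e ∨ f = Equiv.swap e1 e2 e) ∧ Hyb e1 e2 u v' ∧ u' = f :: v' := by
  unfold Hyb
  rw [List.forall₂_cons_left_iff]

lemma hyb_append {u v u' v' : List E} (h : Hyb e1 e2 u u') (h' : Hyb e1 e2 v v') :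
    Hyb e1 e2 (u ++ v) (u' ++ v') := by
  unfold Hyb at *
  exact List.rel_append h h'

lemma hyb_append_singleton {u : List E} {e : E} {w : List E} (h : Hyb e1 e2 (u ++ [e]) w) :
    ∃ u' f, Hyb e1 e2 u u' ∧ (f = e ∨ f = Equiv.swap e1 e2 e) ∧ w = u' ++ [f] := by
  induction u generalizing w with
  | nil =>
    rw [List.nil_append, hyb_cons] at h
    obtain ⟨f, v', hf, hv', rfl⟩ := h
    rw [hv'.nil_left]
    exact ⟨[], f, hyb_refl _, hf, rfl⟩
  | cons g u ih =>
    rw [List.cons_append, hyb_cons] at h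
    obtain ⟨f, v', hf, hv', rfl⟩ := h
    obtain ⟨u', f', hu', hf', rfl⟩ := ih hv'
    exact ⟨f :: u', f', hyb_cons.2 ⟨f, u', hf, hu', rfl⟩, hf', rfl⟩

lemma Hyb.valid (hs : s e1 = s e2) (ht : t e1 = t e2) {u u' : List E} (h : Hyb e1 e2 u u')
    {k : K} : (Valid s t k u' ↔ Valid s t k u) ∧ fin t k u' = fin t k u := by
  induction u generalizing k u' with
  | nil => rw [h.nil_left]; simp
  | cons e u ih =>
    rw [hyb_cons] at h
    obtain ⟨f, v', hf, hv', rfl⟩ := h
    have h1 : s f = s e ∧ t f = t e := by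
      rcases hf with rfl | rfl
      · exact ⟨rfl, rfl⟩
      · exact ⟨s_swap hs e, t_swap hs ht e⟩
    simp only [valid_cons, fin_cons, h1.1, h1.2]
    exact ⟨by rw [(ih hv').1], (ih hv').2⟩

lemma hyb_symm {u u' : List E} (h : Hyb e1 e2 u u') : Hyb e1 e2 u' u := by
  induction u generalizing u' with
  | nil => rw [h.nil_left]; exact hyb_refl _
  | cons e u ih =>
    rw [hyb_cons] at h
    obtain ⟨f, v', hf, hv', rfl⟩ := h
    rw [hyb_cons]
    refine ⟨e, u, ?_, ih hv', rfl⟩
    rcases hf with rfl | rfl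
    · exact Or.inl rfl
    · right; rw [Equiv.swap_apply_self]

end Hybrid

end Pool.Agent.H97.Bun
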