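import Pool.Agent.H75.Bunchy.Main
import Pool.Agent.H97.Bun.Defs

/-!
# Recolouring so that one word leads into a set; end vertices of a walk

Module of `MP_644d19_co` (balanced functions).

`exists_alongZ`: the proof of `exists_along` in `Pool/Agent/H75/Bunchy/Main.lean`, with the set `Z`
instead of the vertex `t` (read `∃ t ∈ Z, Along Φ.v q β t` for `Along Φ.v q β t`).

`ends_subset_walk`: a valid word `u` from `K` over the walk `β` (`u.map H.tgt = β`): the end states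
lie in `{t | ∃ q, v q = K ∧ Along v q β t}`: `Hyb` words have the same `u'.map H.tgt` and are valid;
induction with `mem_followersOver`.
`exists_word_walk`: if some `q` over `K` has `Along Φ.v q β t`, there is a valid word `u` from `K`
with `u.map H.tgt = β` (`mem_followersOver`).
`hyb_avoid`: if `e1`, `e2` are no letters of `u`, `Hyb e1 e2 u u'` only for `u' = u`.
`along_lift`: a walk of `Q` lifts to `G` (`followersOver_image`).
-/

set_option autoImplicit false

namespace Pool.Agent.H97.Bun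

open Pool.Agent.H75.Bunchy Pool.Agent.H26.Bunchy
open scoped Classical

variable {G H Q : Graph}

lemma exists_alongZ (Z : Set G.V) (β : List H.V) : ∀ (K : H.V) (Φ : RightResolver G H),
    ((K :: β).zip β).Pairwise (fun a b => a = b → H.mult a.1 a.2 ≤ 1) →
    (∃ q, Φ.v q = K ∧ ∃ t ∈ Z, Along Φ.v q β t) →
    ∃ (Φ' : RightResolver G H) (u : List H.E), Φ'.v = Φ.v ∧ Valid H.src H.tgt K u ∧
      (∀ q, Φ.v q = K → (∃ t ∈ Z, Along Φ.v q β t) → run Φ'.act q u ∈ Z) ∧
      (∀ e ∈ u, (H.src e, H.tgt e) ∈ (K :: β).zip β) := by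
  induction β with
  | nil =>
    intro K Φ _ _
    refine ⟨Φ, [], rfl, trivial, ?_, by simp⟩
    rintro q _ ⟨t, ht, h⟩
    have h' : q = t := h
    rw [run_nil, h']; exact ht
  | cons J β ih =>
    intro K Φ hβ hex
    have hz : (K :: J :: β).zip (J :: β) = (K, J) :: ((J :: β).zip β) := rfl
    rw [hz, List.pairwise_cons] at hβ
    obtain ⟨q₀, hq₀, t₀, ht₀Z, q₁, hq₁, hal₁⟩ := hex
    have hq₁J : Φ.v q₁ = J := hq₁.2
    obtain ⟨Φ₁, u₁, hv₁, hval₁, hrun₁, hu₁⟩ := ih J Φ hβ.2 ⟨q₁, hq₁J, t₀, ht₀Z, hal₁⟩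
    rw [hz]
    rw [Φ.mem_followersOver] at hq₁
    obtain ⟨e₀, hs₀, ht₀, -⟩ := hq₁
    rw [hq₀] at hs₀
    by_cases hm : H.mult K J ≤ 1
    · refine ⟨Φ₁, e₀ :: u₁, hv₁, ⟨hs₀, by rw [ht₀]; exact hval₁⟩, ?_, ?_⟩
      · rintro q hq ⟨t, htZ, q', hq', hal⟩
        have hq'' : q' ∈ FollowersOver Φ₁.v q J := by rw [hv₁]; exact hq'
        rw [Φ₁.mem_followersOver] at hq''
        obtain ⟨g, hg1, hg2, hg3⟩ := hq''
        have hg0 : g = e₀ := by
          have hm' := (Set.ncard_le_one (Set.toFinite _)).1 hm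
          exact hm' g ⟨by rw [hg1, hv₁, hq], hg2⟩ e₀ ⟨hs₀, ht₀⟩
        subst hg0
        have hvq' : Φ.v q' = J := hq'.2
        rw [run_cons, hg3]
        exact hrun₁ q' hvq' ⟨t, htZ, hal⟩
      · intro e he
        rw [List.mem_cons] at he
        rcases he with rfl | he
        · rw [hs₀, ht₀]; exact List.mem_cons_self
        · exact List.mem_cons_of_mem _ (hu₁ e he)
    · have hnot : (K, J) ∉ (J :: β).zip β := fun hmem => hm (hβ.1 _ hmem rfl)
      obtain ⟨Φ₂, hv₂, hΦ₂⟩ := Φ₁.exists_recolor (fun q π =>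
        (∀ g, ¬ (H.src g = H.src e₀ ∧ H.tgt g = H.tgt e₀) → π g = g) ∧
        (Φ.v q = K → (∃ t ∈ Z, Along Φ.v q (J :: β) t) →
          ∃ q', Φ.v q' = J ∧ (∃ t ∈ Z, Along Φ.v q' β t) ∧ Φ₁.act q (π e₀) = q')) (by
        intro q
        by_cases hq : Φ.v q = K ∧ ∃ t ∈ Z, Along Φ.v q (J :: β) t
        · obtain ⟨hqK, t, htZ, q', hq', hal⟩ := hq
          have hq'' : q' ∈ FollowersOver Φ₁.v q J := by rw [hv₁]; exact hq'
          rw [Φ₁.mem_followersOver] at hq''
          obtain ⟨g, hg1, hg2, hg3⟩ := hq''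
          obtain ⟨π, hπ1, hπ2, hπ3⟩ := exists_perm1 H (e := e₀) (f := g)
            (by rw [hg1, hv₁, hqK, hs₀]) (by rw [hg2, ht₀])
          exact ⟨π, hπ1, hπ2, fun _ _ => ⟨q', hq'.2, ⟨t, htZ, hal⟩, by rw [hπ3]; exact hg3⟩⟩
        · exact ⟨1, fun _ => ⟨rfl, rfl⟩, fun _ _ => rfl, fun h1 h2 => absurd ⟨h1, h2⟩ hq⟩)
      have hact : ∀ e ∈ u₁, ∀ p, Φ₂.act p e = Φ₁.act p e := by
        intro e he p
        obtain ⟨π, _, hQ, hπ⟩ := hΦ₂ p
        rw [hπ, hQ.1 e]
        rintro ⟨h1, h2⟩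
        apply hnot
        have := hu₁ e he
        rw [h1, h2, hs₀, ht₀] at this
        exact this
      refine ⟨Φ₂, e₀ :: u₁, by rw [hv₂, hv₁], ⟨hs₀, by rw [ht₀]; exact hval₁⟩, ?_, ?_⟩
      · intro q hq hal
        obtain ⟨π, _, hQ, hπ⟩ := hΦ₂ q
        obtain ⟨q', hq'1, hq'2, hq'3⟩ := hQ.2 hq hal
        rw [run_cons, hπ, hq'3, run_congr hact]
        exact hrun₁ q' hq'1 hq'2
      · intro e he
        rw [List.mem_cons] at he
        rcases he with rfl | he
        · rw [hs₀, ht₀]; exact List.mem_cons_self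
        · exact List.mem_cons_of_mem _ (hu₁ e he)

lemma ends_subset_walk (Φ : RightResolver G H) {e1 e2 : H.E} (hs : H.src e1 = H.src e2)
    (ht : H.tgt e1 = H.tgt e2) {K : H.V} {u : List H.E} (hu : Valid H.src H.tgt K u) :
    ends Φ.v Φ.act e1 e2 K u ⊆ {t | ∃ q, Φ.v q = K ∧ Along Φ.v q (u.map H.tgt) t} := by
  have key : ∀ (u : List H.E) (q : G.V) (u' : List H.E), Valid H.src H.tgt (Φ.v q) u →
      Hyb e1 e2 u u' → Along Φ.v q (u.map H.tgt) (run Φ.act q u') := by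
    intro u
    induction u with
    | nil =>
      intro q u' _ h
      rw [h.nil_left]
      exact rfl
    | cons e u ih =>
      intro q u' hv h
      rw [hyb_cons] at h
      obtain ⟨f, v', hf, hv', rfl⟩ := h
      rw [valid_cons] at hv
      have h1 : H.src f = H.src e ∧ H.tgt f = H.tgt e := by
        rcases hf with rfl | rfl
        · exact ⟨rfl, rfl⟩
        · exact ⟨s_swap hs e, t_swap hs ht e⟩
      have hmem : Φ.act q f ∈ FollowersOver Φ.v q (H.tgt e) := by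
        rw [Φ.mem_followersOver]
        exact ⟨f, by rw [h1.1, hv.1], h1.2, rfl⟩
      have hvt : Φ.v (Φ.act q f) = H.tgt e := hmem.2
      rw [List.map_cons, run_cons]
      exact ⟨Φ.act q f, hmem, ih (Φ.act q f) v' (by rw [hvt]; exact hv.2) hv'⟩
  rintro z ⟨q, u', hq, h, rfl⟩
  exact ⟨q, hq, key u q u' (by rw [hq]; exact hu) h⟩

lemma exists_word_walk (Φ : RightResolver G H) {β : List H.V} {q t : G.V}
    (h : Along Φ.v q β t) : ∃ u, Valid H.src H.tgt (Φ.v q) u ∧ u.map H.tgt = β := by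
  induction β generalizing q with
  | nil => exact ⟨[], trivial, rfl⟩
  | cons J β ih =>
    obtain ⟨q', hq', h'⟩ := h
    have hJ : Φ.v q' = J := hq'.2
    obtain ⟨u, hu1, hu2⟩ := ih h'
    rw [Φ.mem_followersOver] at hq'
    obtain ⟨g, hg1, hg2, -⟩ := hq'
    refine ⟨g :: u, ⟨hg1, ?_⟩, by rw [List.map_cons, hg2, hu2]⟩
    rw [hg2, ← hJ]; exact hu1

lemma hyb_avoid {E : Type*} {e1 e2 : E} {u u' : List E} (h1 : e1 ∉ u) (h2 : e2 ∉ u)
    (h : Hyb e1 e2 u u') : u' = u := by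
  induction u generalizing u' with
  | nil => exact h.nil_left
  | cons e u ih =>
    rw [hyb_cons] at h
    obtain ⟨f, v', hf, hv', rfl⟩ := h
    rw [List.mem_cons, not_or] at h1 h2
    have hfe : f = e := by
      rcases hf with hf | hf
      · exact hf
      · rw [hf, Equiv.swap_apply_of_ne_of_ne (Ne.symm h1.1) (Ne.symm h2.1)]
    rw [hfe, ih h1.2 h2.2 hv']

lemma along_lift (Ψ : RightResolver G Q) (θ : Q.V → H.V) (v : G.V → H.V)
    (hv : ∀ p, θ (Ψ.v p) = v p) (β : List H.V) (q : G.V) (t' : Q.V)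
    (h : Along θ (Ψ.v q) β t') : ∃ t, Ψ.v t = t' ∧ Along v q β t := by
  induction β generalizing q with
  | nil => exact ⟨q, h, rfl⟩
  | cons J β ih =>
    obtain ⟨q', hq', h'⟩ := h
    rw [followersOver_image Ψ θ v hv] at hq'
    obtain ⟨q'', hq'', rfl⟩ := hq'
    obtain ⟨t, ht1, ht2⟩ := ih q'' h'
    exact ⟨t, ht1, q'', hq'', ht2⟩

end Pool.Agent.H97.Bun
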