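import Pool.Agent.H97.Bun.Defs

/-!
# The averaging operator

Module of `MP_644d19_co` (balanced functions). `avg a e1 e2 u φ p` is the average of
`φ (run a p u')` over the exchanges of `e1` and `e2` in `u`. All proofs are inductions on `u`.

* `avg_flip`: at each step `a' p e` and `a' p (swap e)` are `a p e` and `a p (swap e)` in one of the
  two orders (`flip_of_mem`, `Equiv.swap_apply_self`, `flip_of_notMem`, `add_comm`).
* `avg_single_le`/`avg_pos`: one of the two summands is positive, the other nonnegative (`avg_nonneg`).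
* `avg_bal`: if all the means of `φ (run a p (v ++ u'))` are `c`, then so is the mean of
  `avg a e1 e2 u φ (run a p v)`. Induction on `u` for all `v`:
  `avg (e :: u) φ (run a p v) = (avg u φ (run a p (v ++ [e])) + avg u φ (run a p (v ++ [swap e]))) / 2`;
  use `mean_add`, `mean_smul`. It is best to prove the statement `avg_mean` below, which has no
  types, and to deduce `avg_bal` from it.
-/

set_option autoImplicit false

namespace Pool.Agent.H97.Bun

open Pool.Agent.H75.Bunchy Pool.Agent.H26.Bunchy
open scoped Classical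

section
variable {V E : Type*}

/-- the average over the exchanges of `e1` and `e2` in `u` -/
noncomputable def avg (a : V → E → V) (e1 e2 : E) : List E → (V → ℝ) → V → ℝ
  | [], φ => φ
  | e :: u, φ => fun p =>
      (avg a e1 e2 u φ (a p e) + avg a e1 e2 u φ (a p (Equiv.swap e1 e2 e))) / 2

variable {a : V → E → V} {e1 e2 : E}

lemma avg_flip (δ : Set V) (u : List E) (φ : V → ℝ) :
    avg (flip e1 e2 δ a) e1 e2 u φ = avg a e1 e2 u φ := by
  induction u with
  | nil => rfl
  | cons e u ih =>
    funext p
    simp only [avg]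
    rw [ih]
    by_cases hp : p ∈ δ
    · rw [flip_of_mem hp, flip_of_mem hp, Equiv.swap_apply_self, add_comm]
    · rw [flip_of_notMem hp, flip_of_notMem hp]

lemma avg_sub (u : List E) (φ ψ : V → ℝ) (p : V) :
    avg a e1 e2 u (fun z => φ z - ψ z) p = avg a e1 e2 u φ p - avg a e1 e2 u ψ p := by
  induction u generalizing p with
  | nil => rfl
  | cons e u ih =>
    simp only [avg]
    rw [ih, ih]
    ring

lemma avg_smul (u : List E) (c : ℝ) (φ : V → ℝ) (p : V) :
    avg a e1 e2 u (fun z => c * φ z) p = c * avg a e1 e2 u φ p := by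
  induction u generalizing p with
  | nil => rfl
  | cons e u ih =>
    simp only [avg]
    rw [ih, ih]
    ring

lemma avg_nonneg {φ : V → ℝ} (hφ : ∀ z, 0 ≤ φ z) (u : List E) (p : V) :
    0 ≤ avg a e1 e2 u φ p := by
  induction u generalizing p with
  | nil => exact hφ p
  | cons e u ih =>
    simp only [avg]
    have h1 := ih (a p e)
    have h2 := ih (a p (Equiv.swap e1 e2 e))
    positivity

lemma avg_pos {φ : V → ℝ} (hφ : ∀ z, 0 ≤ φ z) {u u' : List E} (hu : Hyb e1 e2 u u') {p : V}
    (hp : 0 < φ (run a p u')) : 0 < avg a e1 e2 u φ p := by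
  induction u generalizing p u' with
  | nil =>
    rw [hu.nil_left] at hp
    exact hp
  | cons e u ih =>
    obtain ⟨f, v', hf, hv', rfl⟩ := hyb_cons.1 hu
    rw [run_cons] at hp
    simp only [avg]
    have h1 := avg_nonneg (a := a) (e1 := e1) (e2 := e2) hφ u (a p e)
    have h2 := avg_nonneg (a := a) (e1 := e1) (e2 := e2) hφ u (a p (Equiv.swap e1 e2 e))
    have h3 := ih hv' hp
    rcases hf with rfl | rfl
    · linarith
    · linarith

end

section
variable {V K E : Type*} [Fintype V] [Fintype E] {s t : E → K} {σ : V → K} {a : V → E → V}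
  {e1 e2 : E} {μ : V → ℝ}

lemma avg_mean {j : K} {u v : List E} {φ : V → ℝ} {c : ℝ}
    (h : ∀ u', Hyb e1 e2 u u' → mean σ μ j (fun p => φ (run a p (v ++ u'))) = c) :
    mean σ μ j (fun p => avg a e1 e2 u φ (run a p v)) = c := by
  induction u generalizing v with
  | nil =>
    have h1 := h [] (hyb_refl [])
    simp only [List.append_nil] at h1
    exact h1
  | cons e u ih =>
    have h1 : mean σ μ j (fun p => avg a e1 e2 u φ (run a p (v ++ [e]))) = c := by
      refine ih fun u' hu' => ?_
      have h2 := h (e :: u') (hyb_cons.2 ⟨e, u', Or.inl rfl, hu', rfl⟩)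
      rw [List.append_assoc]
      exact h2
    have h3 : mean σ μ j (fun p => avg a e1 e2 u φ (run a p (v ++ [Equiv.swap e1 e2 e]))) = c := by
      refine ih fun u' hu' => ?_
      have h2 := h (Equiv.swap e1 e2 e :: u') (hyb_cons.2 ⟨_, u', Or.inr rfl, hu', rfl⟩)
      rw [List.append_assoc]
      exact h2
    have h4 : (fun p => avg a e1 e2 (e :: u) φ (run a p v)) = fun p =>
        (1 / 2 : ℝ) * (avg a e1 e2 u φ (run a p (v ++ [e])) +
          avg a e1 e2 u φ (run a p (v ++ [Equiv.swap e1 e2 e]))) := by
      funext p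
      simp only [avg, run_append, run_cons, run_nil]
      ring
    rw [h4, mean_smul, mean_add, h1, h3]
    ring

lemma avg_bal {k : K} {u : List E} {f : V → ℝ} {c : ℝ} (h : Bal s t σ a μ e1 e2 k u f c) :
    Bal s t σ a μ e1 e2 k [] (avg a e1 e2 u f) c := by
  intro j v u' hj hv hf hu
  rw [hu.nil_left, List.append_nil]
  exact avg_mean fun u'' hu'' => h j v u'' hj hv hf hu''

end

end Pool.Agent.H97.Bun
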