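import Pool.Agent.H97.Bun.Defs

/-!
# Balanced for both automata, empty word: constant

Module of `MP_644d19_co` (balanced functions). Let `a' = flip e1 e2 {x} a`, `f` with mean `c` after
all words `v` of `a` from type `j` to type `k`, and mean `c'` after all words of `a'`.

`same_words`: by induction on the word `w` (valid from type `j'`, `fin t j' w = k`):
(i) `f (run a p w) = f (run a' p w)` for all `p` of type `j'`;
(ii) if `t e1 = j'` then `f (run a (a x e1) w) = f (run a (a x e2) w)`, and `c = c'`.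
First (i) ⟹ (ii) for the same word: `e1 :: w` and `e2 :: w` are valid from type `s e1 = σ x`;
by (i) for `w` and `run a' q (e1 :: w) = run a' (a' q e1) w`:
`f (run a' q (e1 :: w)) - f (run a q (e1 :: w))` is `0` for `q ≠ x` of type `σ x`
(`flip_of_notMem`), and is `f (run a (a x e2) w) - f (run a (a x e1) w) =: d` for `q = x`
(`flip_left`). With `mean_sub` and `mean_single`: `c' - c = wt σ μ x * d`. The same for `e2`:
`c' - c = wt σ μ x * (-d)` (`flip_right`). So `d = 0` and `c = c'` (`wt_pos`).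
Then (i), (ii) for `w` ⟹ (i) for `e :: w`: `a' p e = a p e` unless `p = x` and `e = e1` or `e2`
(then use (ii)).

`const_nil`: put `R p q := σ p = σ q ∧ ∀ w, Valid s t (σ p) w → fin t (σ p) w = k →
f (run a p w) = f (run a q w)`: an equivalence relation, closed under valid letters (`ha`), containing
`(a x e1, a x e2)` by (ii). By `Total` it contains all pairs of the same type; with `w = []`: `f` is
constant on the states of type `k`, and the mean of `f` is `c` (`v = u' = []`, `mean_congr`,
`mean_const`), so the constant is `c`.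
-/

set_option autoImplicit false

namespace Pool.Agent.H97.Bun

open Pool.Agent.H75.Bunchy Pool.Agent.H26.Bunchy
open scoped Classical

variable {V K E : Type*} [Fintype V] [Fintype E] {s t : E → K} {σ : V → K} {a : V → E → V}
  {e1 e2 : E} {μ : V → ℝ}

omit [Fintype E] in
private lemma CNil_key (hμ : ∀ p, 0 < μ p) (hs : s e1 = s e2) (ht : t e1 = t e2)
    (ha : Typed s t σ a) {x : V} (hx : s e1 = σ x) {k : K} {f : V → ℝ} {c c' : ℝ}
    (h : Bal s t σ a μ e1 e2 k [] f c)
    (h' : Bal s t σ (flip e1 e2 {x} a) μ e1 e2 k [] f c') (w : List E)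
    (hw : Valid s t (t e1) w) (hf : fin t (t e1) w = k)
    (hi : ∀ p, σ p = t e1 → f (run a p w) = f (run (flip e1 e2 {x} a) p w)) :
    f (run a (a x e1) w) = f (run a (a x e2) w) ∧ c = c' := by
  have hmem : x ∈ ({x} : Set V) := Set.mem_singleton x
  have h1 := h (σ x) (e1 :: w) [] ⟨x, rfl⟩ ⟨hx, hw⟩ hf (hyb_refl [])
  have h1' := h' (σ x) (e1 :: w) [] ⟨x, rfl⟩ ⟨hx, hw⟩ hf (hyb_refl [])
  have hf2 : fin t (t e2) w = k := by rw [← ht]; exact hf
  have hw2 : Valid s t (t e2) w := by rw [← ht]; exact hw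
  have h2 := h (σ x) (e2 :: w) [] ⟨x, rfl⟩ ⟨hs ▸ hx, hw2⟩ hf2 (hyb_refl [])
  have h2' := h' (σ x) (e2 :: w) [] ⟨x, rfl⟩ ⟨hs ▸ hx, hw2⟩ hf2 (hyb_refl [])
  simp only [List.append_nil, run_cons] at h1 h1' h2 h2'
  have hx2 : s e2 = σ x := hs ▸ hx
  have k1 : c' - c = wt σ μ x * (f (run a (a x e2) w) - f (run a (a x e1) w)) := by
    rw [← h1, ← h1', ← mean_sub, mean_single (x := x)]
    · rw [flip_left hmem, ← hi (a x e2) (by rw [ha x e2 hx2, ht])]
    · intro p hp hpx
      rw [flip_of_notMem (by simpa using hpx), ← hi (a p e1) (ha p e1 (by rw [hx, hp])), sub_self]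
  have k2 : c' - c = wt σ μ x * (f (run a (a x e1) w) - f (run a (a x e2) w)) := by
    rw [← h2, ← h2', ← mean_sub, mean_single (x := x)]
    · rw [flip_right hmem, ← hi (a x e1) (ha x e1 hx)]
    · intro p hp hpx
      rw [flip_of_notMem (by simpa using hpx),
        ← hi (a p e2) (by rw [ha p e2 (by rw [hx2, hp]), ht]), sub_self]
  have hw0 := wt_pos (σ := σ) hμ x
  have k3 : wt σ μ x * (f (run a (a x e2) w) - f (run a (a x e1) w)) = 0 := by linarith
  have k4 : f (run a (a x e2) w) - f (run a (a x e1) w) = 0 :=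
    (mul_eq_zero.1 k3).resolve_left hw0.ne'
  constructor
  · linarith
  · linarith

lemma same_words (hμ : ∀ p, 0 < μ p) (hs : s e1 = s e2) (ht : t e1 = t e2)
    (ha : Typed s t σ a) {x : V} (hx : s e1 = σ x) {k : K} {f : V → ℝ} {c c' : ℝ}
    (h : Bal s t σ a μ e1 e2 k [] f c)
    (h' : Bal s t σ (flip e1 e2 {x} a) μ e1 e2 k [] f c') (w : List E) :
    ∀ j : K, Valid s t j w → fin t j w = k →
      (∀ p, σ p = j → f (run a p w) = f (run (flip e1 e2 {x} a) p w)) ∧
      (t e1 = j → f (run a (a x e1) w) = f (run a (a x e2) w) ∧ c = c') := by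
  have hmem : x ∈ ({x} : Set V) := Set.mem_singleton x
  induction w with
  | nil =>
    intro j hv hf
    refine ⟨fun p _ => rfl, fun hj => ?_⟩
    subst hj
    exact CNil_key hμ hs ht ha hx h h' [] hv hf fun p _ => rfl
  | cons e w ih =>
    intro j hv hf
    obtain ⟨hse, hv'⟩ := hv
    have hf' : fin t (t e) w = k := hf
    obtain ⟨i1, i2⟩ := ih (t e) hv' hf'
    have hi : ∀ p, σ p = j → f (run a p (e :: w)) = f (run (flip e1 e2 {x} a) p (e :: w)) := by
      intro p hp
      have hsp : s e = σ p := by rw [hse, hp]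
      simp only [run_cons]
      rw [← i1 _ ((ha.flip hs ht {x}) p e hsp)]
      by_cases hpx : p = x
      · subst hpx
        by_cases he1 : e = e1
        · subst he1
          rw [flip_left hmem]
          exact (i2 rfl).1
        · by_cases he2 : e = e2
          · subst he2
            rw [flip_right hmem]
            exact ((i2 ht).1).symm
          · rw [flip_other he1 he2]
      · rw [flip_of_notMem (by simpa using hpx)]
    refine ⟨hi, fun hj => ?_⟩
    subst hj
    exact CNil_key hμ hs ht ha hx h h' (e :: w) ⟨hse, hv'⟩ hf hi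

/-- balanced for both automata (empty word): constant -/
lemma const_nil (hμ : ∀ p, 0 < μ p) (hs : s e1 = s e2) (ht : t e1 = t e2)
    (ha : Typed s t σ a) {x : V} (hx : s e1 = σ x) (hT : Total s σ a (a x e1) (a x e2)) {k : K}
    {f : V → ℝ} {c c' : ℝ} (h : Bal s t σ a μ e1 e2 k [] f c)
    (h' : Bal s t σ (flip e1 e2 {x} a) μ e1 e2 k [] f c') : ∀ z, σ z = k → f z = c := by
  have hx2 : s e2 = σ x := hs ▸ hx
  have hall := hT (fun p q => σ p = σ q ∧ ∀ w, Valid s t (σ p) w → fin t (σ p) w = k →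
    f (run a p w) = f (run a q w))
    ⟨fun p => ⟨rfl, fun _ _ _ => rfl⟩,
      fun {p q} hpq => ⟨hpq.1.symm, fun w hw hf => (hpq.2 w (hpq.1 ▸ hw) (hpq.1 ▸ hf)).symm⟩,
      fun {p q r} hpq hqr => ⟨hpq.1.trans hqr.1, fun w hw hf =>
        (hpq.2 w hw hf).trans (hqr.2 w (hpq.1 ▸ hw) (hpq.1 ▸ hf))⟩⟩
    (fun p q hpq => hpq.1)
    (fun p q e hpq he => by
      have h1 : σ (a p e) = t e := ha p e he
      have h2 : σ (a q e) = t e := ha q e (by rw [he, hpq.1])
      refine ⟨h1.trans h2.symm, fun w hw hf => ?_⟩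
      rw [h1] at hw hf
      exact hpq.2 (e :: w) ⟨he, hw⟩ hf)
    (by
      have h1 : σ (a x e1) = t e1 := ha x e1 hx
      have h2 : σ (a x e2) = t e2 := ha x e2 hx2
      refine ⟨by rw [h1, h2, ht], fun w hw hf => ?_⟩
      rw [h1] at hw hf
      exact ((same_words hμ hs ht ha hx h h' w (t e1) hw hf).2 rfl).1)
  intro z hz
  have h1 := h k [] [] ⟨z, hz⟩ trivial rfl (hyb_refl [])
  simp only [List.append_nil, run_nil] at h1
  have h2 : mean σ μ k (fun p => f p) = mean σ μ k (fun _ => f z) := by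
    refine mean_congr fun p hp => ?_
    exact (hall p z (by rw [hp, hz])).2 [] trivial (by rw [fin_nil, hp])
  rw [h2, mean_const hμ ⟨z, hz⟩] at h1
  exact h1

end Pool.Agent.H97.Bun
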