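import Pool.Agent.H97.Bun.CNil
import Pool.Agent.H97.Bun.Avg

/-!
# Balanced for both automata: constant on the end states

Module of `MP_644d19_co` (balanced functions). `a' = flip e1 e2 {x} a`.

`ends_flip`: the end states are the same for `a` and `a'` (induction on the word; or prove: for every
`p` and every `u'` with `Hyb u u'` there is `u''` with `Hyb u u''` and `run a' p u' = run a p u''`;
letter by letter `a' p f` is `a p f` or `a p (swap f)`).

`const_of_bal`, by induction on `u` from the right (`List.reverseRecOn` / `List.reverseRec`):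
* `u = []`: `const_nil` (the elements of `ends σ a e1 e2 k []` are the states of type `k`).
* `u = u₀ ++ [e]`. First `c = c'`: by `avg_bal`, `avg a e1 e2 u f` is balanced for the empty word with
  `c` for `a` and with `c'` for `a'` (`avg_flip`), so by `const_nil` it is `c` at all states of type
  `k`, and by `same_words`-type reasoning also `c'`: apply `const_nil` once more or compare the mean
  over the (nonempty) fibre of `k`: `h` with `v = []` and `h'` with `v = []` have the same average
  (`avg_mean` for both with `j = k`, `v = []`, `avg_flip`), so `c = c'`.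
  For `e' = e` or `e' = swap e` put `g = fun z => f (a z e')`, `g' = fun z => f (a' z e')`. Then
  `Bal a k u₀ g c` and `Bal a' k u₀ g' c'` (`run a p (v ++ (u₀' ++ [e'])) = a (run a p (v ++ u₀')) e'`).
  CLAIM: `g z = g' z` for all `z ∈ ends σ a e1 e2 k u₀`. If `z ≠ x` or `e'` is neither `e1` nor `e2`
  this is clear. Let `x ∈ ends σ a e1 e2 k u₀` and `e' = e1` (`e2` is the same): `avg u₀ g` and
  `avg u₀ g'` have the same mean `c = c'` over the fibre of `k` (`avg_mean`, `avg_flip`), and
  `g' - g = (f (a x e2) - f (a x e1)) • 1_x`, the mean of `avg u₀ 1_x` is positive (`avg_pos`,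
  `mean_pos` with the state `p` of type `k` from which `x` is reached), so `f (a x e1) = f (a x e2)`.
  So `Bal a' k u₀ g c'` as well (the values of `Bal` only involve end states: `bal_congr`), and the
  induction hypothesis gives `g z = c` on `ends σ a e1 e2 k u₀`. Every element of
  `ends σ a e1 e2 k (u₀ ++ [e])` is `a z e'` with `z ∈ ends σ a e1 e2 k u₀` (`hyb_append_singleton`,
  `run_append`).
-/

set_option autoImplicit false

namespace Pool.Agent.H97.Bun

open Pool.Agent.H75.Bunchy Pool.Agent.H26.Bunchy
open scoped Classical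

variable {V K E : Type*} [Fintype V] [Fintype E] {s t : E → K} {σ : V → K} {a : V → E → V}
  {e1 e2 : E} {μ : V → ℝ}

omit [Fintype V] [Fintype E] in
lemma run_flip_hyb (δ : Set V) (u : List E) (u' : List E) (hu : Hyb e1 e2 u u') (p : V) :
    ∃ u'', Hyb e1 e2 u u'' ∧ run (flip e1 e2 δ a) p u' = run a p u'' := by
  induction u generalizing u' p with
  | nil =>
    rw [hu.nil_left]
    exact ⟨[], hyb_refl _, rfl⟩
  | cons e u ih =>
    rw [hyb_cons] at hu
    obtain ⟨f, v', hf, hv', rfl⟩ := hu
    by_cases hp : p ∈ δ
    · obtain ⟨v'', hv'', hr⟩ := ih v' hv' (a p (Equiv.swap e1 e2 f))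
      refine ⟨Equiv.swap e1 e2 f :: v'', hyb_cons.2 ⟨_, v'', ?_, hv'', rfl⟩, ?_⟩
      · rcases hf with rfl | rfl
        · exact Or.inr rfl
        · left
          rw [Equiv.swap_apply_self]
      · rw [run_cons, run_cons, flip_of_mem hp, hr]
    · obtain ⟨v'', hv'', hr⟩ := ih v' hv' (a p f)
      refine ⟨f :: v'', hyb_cons.2 ⟨_, v'', hf, hv'', rfl⟩, ?_⟩
      rw [run_cons, run_cons, flip_of_notMem hp, hr]

omit [Fintype V] [Fintype E] in
lemma ends_flip (δ : Set V) (k : K) (u : List E) :
    ends σ (flip e1 e2 δ a) e1 e2 k u = ends σ a e1 e2 k u := by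
  ext z
  constructor
  · rintro ⟨p, u', hp, hu, hz⟩
    obtain ⟨u'', hu'', hr⟩ := run_flip_hyb (a := a) δ u u' hu p
    exact ⟨p, u'', hp, hu'', by rw [← hr, hz]⟩
  · rintro ⟨p, u', hp, hu, hz⟩
    obtain ⟨u'', hu'', hr⟩ := run_flip_hyb (a := flip e1 e2 δ a) δ u u' hu p
    have h1 : flip e1 e2 δ (flip e1 e2 δ a) = a := by
      rw [Pool.Agent.H75.Bunchy.flip_flip, symmDiff_self]
      exact flip_empty
    rw [h1] at hr
    exact ⟨p, u'', hp, hu'', by rw [← hr, hz]⟩

lemma bal_congr (ha : Typed s t σ a) {k : K} {u : List E} {f g : V → ℝ} {c : ℝ}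
    (hfg : ∀ z ∈ ends σ a e1 e2 k u, f z = g z) (h : Bal s t σ a μ e1 e2 k u f c) :
    Bal s t σ a μ e1 e2 k u g c := by
  intro j v u' hj hv hf hu
  rw [← h j v u' hj hv hf hu]
  refine mean_congr fun p hp => ?_
  refine (hfg _ ⟨run a p v, u', ?_, hu, ?_⟩).symm
  · rw [ha.run p v (by rw [hp]; exact hv), hp]
    exact hf
  · rw [run_append]

private lemma cOf_mean {k : K} (hk : ∃ p, σ p = k) {u : List E} {f : V → ℝ} {c : ℝ}
    (h : Bal s t σ a μ e1 e2 k u f c) : mean σ μ k (avg a e1 e2 u f) = c :=
  avg_mean (a := a) (v := []) fun u' hu => h k [] u' hk (valid_nil k) rfl hu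

private lemma cOf_step {k : K} {u : List E} {e e' : E} (he : e' = e ∨ e' = Equiv.swap e1 e2 e)
    {f : V → ℝ} {c : ℝ} (h : Bal s t σ a μ e1 e2 k (u ++ [e]) f c) :
    Bal s t σ a μ e1 e2 k u (fun z => f (a z e')) c := by
  intro j v u' hj hv hf hu
  have h1 := h j v (u' ++ [e']) hj hv hf
    (hyb_append hu (hyb_cons.2 ⟨e', [], he, hyb_refl _, rfl⟩))
  rw [← h1]
  refine mean_congr fun p _ => ?_
  show f (a (run a p (v ++ u')) e') = f (run a p (v ++ (u' ++ [e'])))
  rw [← List.append_assoc, run_append p (v ++ u') [e']]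
  rfl

/-- functions that are balanced for both automata are constant on the end states -/
theorem const_of_bal (hμ : ∀ p, 0 < μ p) (hs : s e1 = s e2) (ht : t e1 = t e2)
    (ha : Typed s t σ a) {x : V} (hx : s e1 = σ x) (hT : Total s σ a (a x e1) (a x e2)) {k : K}
    (hk : ∃ p, σ p = k) (u : List E) : ∀ (f : V → ℝ) (c c' : ℝ),
    Bal s t σ a μ e1 e2 k u f c → Bal s t σ (flip e1 e2 {x} a) μ e1 e2 k u f c' →
    ∀ z ∈ ends σ a e1 e2 k u, f z = c := by
  induction u using List.reverseRecOn with
  | nil =>
    rintro f c c' h h' z ⟨p, u', hp, hu, hz⟩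
    rw [hu.nil_left] at hz
    refine const_nil hμ hs ht ha hx hT h h' z ?_
    rw [← hz]
    exact hp
  | append_singleton u e ih =>
    intro f c c' h h' z hz
    have hcc : c = c' := by
      have h1 := cOf_mean hk h
      have h2 := cOf_mean hk h'
      rw [avg_flip] at h2
      rw [← h1, h2]
    subst hcc
    obtain ⟨p, w, hp, hw, rfl⟩ := hz
    obtain ⟨u', e', hu', he', rfl⟩ := hyb_append_singleton hw
    have hb := cOf_step he' h
    have hb' := cOf_step he' h'
    have key : ∀ z ∈ ends σ a e1 e2 k u, f (flip e1 e2 {x} a z e') = f (a z e') := by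
      intro z hz
      by_cases hzx : z = x
      · subst hzx
        obtain ⟨d, hd⟩ : ∃ d, d = f (flip e1 e2 {z} a z e') - f (a z e') := ⟨_, rfl⟩
        have h1 := cOf_mean hk hb
        have h2 := cOf_mean hk hb'
        rw [avg_flip] at h2
        have h3 : (fun y => f (flip e1 e2 {z} a y e') - f (a y e')) =
            fun y => d * (if y = z then (1 : ℝ) else 0) := by
          funext y
          by_cases hy : y = z
          · rw [hy, if_pos rfl, mul_one, hd]
          · rw [if_neg hy, mul_zero, flip_of_notMem (by simpa using hy), sub_self]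
        have h4 : mean σ μ k (fun p => avg a e1 e2 u
            (fun y => f (flip e1 e2 {z} a y e') - f (a y e')) p) = 0 := by
          have h5 : (fun p => avg a e1 e2 u
              (fun y => f (flip e1 e2 {z} a y e') - f (a y e')) p) = fun p =>
              avg a e1 e2 u (fun y => f (flip e1 e2 {z} a y e')) p -
                avg a e1 e2 u (fun y => f (a y e')) p := by
            funext p
            exact avg_sub u _ _ p
          rw [h5, mean_sub, h2, h1, sub_self]
        rw [h3] at h4
        have h6 : (fun p => avg a e1 e2 u (fun y => d * (if y = z then (1 : ℝ) else 0)) p) =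
            fun p => d * avg a e1 e2 u (fun y => if y = z then (1 : ℝ) else 0) p := by
          funext p
          exact avg_smul u d _ p
        rw [h6, mean_smul] at h4
        obtain ⟨q, v, hq, hv, hqz⟩ := hz
        have hnn : ∀ y : V, 0 ≤ (if y = z then (1 : ℝ) else 0) := by
          intro y
          split_ifs
          · exact zero_le_one
          · exact le_rfl
        have h7 : 0 < mean σ μ k (avg a e1 e2 u (fun y => if y = z then (1 : ℝ) else 0)) := by
          refine mean_pos hμ (fun p _ => avg_nonneg hnn u p) hq ?_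
          refine avg_pos hnn hv ?_
          rw [if_pos hqz]
          exact zero_lt_one
        have h8 : d = 0 := by
          rcases mul_eq_zero.1 h4 with h9 | h9
          · exact h9
          · exact absurd h9 h7.ne'
        rw [hd] at h8
        exact sub_eq_zero.1 h8
      · rw [flip_of_notMem (by simpa using hzx)]
    have hb'' : Bal s t σ (flip e1 e2 {x} a) μ e1 e2 k u (fun z => f (a z e')) c := by
      refine bal_congr (ha.flip hs ht _) (fun z hz => ?_) hb'
      rw [ends_flip] at hz
      exact key z hz
    have h9 := ih _ c c hb hb'' (run a p u') ⟨p, u', hp, hu', rfl⟩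
    rw [run_append]
    exact h9

end Pool.Agent.H97.Bun
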