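import Mathlib

/-!
# Two facts of linear algebra

Module of `MP_644d19_co` (balanced functions).

`finrank_of_anti`: let `A` be the space of `f` with `f ∘ τ = - f` and `S` the space of `f` with
`f ∘ τ = f` (kernels of `id + τ*`, `id - τ*`). `A ⊔ S = ⊤` (`f = (f + f∘τ)/2 + (f - f∘τ)/2`), so
`card X ≤ finrank A + finrank S`. Choose `g : X → ℝ` with `g (τ x) = - g x`, `g x ≠ 0` (for an
injection `i : X → ℕ`, e.g. `Fintype.equivFin`, `g x = 1` if `i x < i (τ x)` and `-1` otherwise);
multiplication by `g` is an injective linear map `S → A`, so `finrank S ≤ finrank A`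
(`LinearMap.finrank_le_finrank_of_injective`). The constant `1` is not in `A`, so
`finrank (A ⊔ span {1}) = finrank A + 1`, and `A ⊔ span {1} ≤ N`. Total:
`card X + 2 ≤ 2 * finrank A + 2 ≤ 2 * finrank N`.

`card_le_classes`: let `T` be the set of functions in `N` with values `0`, `1`. The functions
`1_i = (fun x => if π x = i then 1 else 0)` are in `T`, and they are linearly independent
(`π` surjective: evaluate at a point of `π ⁻¹' {i}`). `exists_linearIndependent_extension` gives
`b ⊆ T` containing all `1_i`, linearly independent, with `T ⊆ span b`; `b` is finite,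
`b.ncard ≤ finrank N` (`LinearIndependent.fintype_card_le_finrank` in `N`, or
`finrank (span b) = b.ncard` and `span b ≤ N`). The map
`x ↦ (π x, {c ∈ b | c is no 1_i, c x = 1})` from `X` to `ι × Set (b \ {1_i})` is injective: if two
points have the same image, all `c ∈ b` take the same value at both, so all elements of
`span b ⊇ T` do (`Submodule.span_induction`), so they are equal by `hsep`. Count.
-/

set_option autoImplicit false

namespace Pool.Agent.H97.Bun

open scoped Classical

theorem finrank_of_anti {X : Type*} [Fintype X] [Nonempty X] (τ : X → X)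
    (h1 : ∀ x, τ (τ x) = x) (h2 : ∀ x, τ x ≠ x) (N : Submodule ℝ (X → ℝ))
    (hN : ∀ f : X → ℝ, (∀ x, f (τ x) = - f x) → f ∈ N) (h1N : (fun _ => (1 : ℝ)) ∈ N) :
    Fintype.card X + 2 ≤ 2 * Module.finrank ℝ N := by
  let A : Submodule ℝ (X → ℝ) :=
    { carrier := {f | ∀ x, f (τ x) = - f x}
      add_mem' := fun {f g} hf hg x => by
        rw [Pi.add_apply, Pi.add_apply, hf x, hg x]; ring
      zero_mem' := fun x => by simp
      smul_mem' := fun c f hf x => by
        rw [Pi.smul_apply, Pi.smul_apply, hf x, smul_neg] }
  let S : Submodule ℝ (X → ℝ) :=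
    { carrier := {f | ∀ x, f (τ x) = f x}
      add_mem' := fun {f g} hf hg x => by
        rw [Pi.add_apply, Pi.add_apply, hf x, hg x]
      zero_mem' := fun x => by simp
      smul_mem' := fun c f hf x => by
        rw [Pi.smul_apply, Pi.smul_apply, hf x] }
  have hAS : A ⊔ S = ⊤ := by
    rw [eq_top_iff]
    intro f _
    rw [Submodule.mem_sup]
    refine ⟨fun x => (f x - f (τ x)) / 2, fun x => ?_, fun x => (f x + f (τ x)) / 2, fun x => ?_,
      ?_⟩
    · simp only [h1]; ring
    · simp only [h1]; ring
    · funext x
      simp only [Pi.add_apply]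
      ring
  have hcard : Fintype.card X ≤ Module.finrank ℝ A + Module.finrank ℝ S := by
    have e1 := Submodule.finrank_add_le_finrank_add_finrank A S
    rwa [hAS, finrank_top, Module.finrank_fintype_fun_eq_card] at e1
  let i := Fintype.equivFin X
  let g : X → ℝ := fun x => if i x < i (τ x) then 1 else -1
  have hg : ∀ x, g (τ x) = - g x := by
    intro x
    have hne : i x ≠ i (τ x) := fun h => h2 x (i.injective h).symm
    simp only [g, h1]
    rcases lt_or_gt_of_ne hne with h | h
    · rw [if_neg (not_lt.2 h.le), if_pos h]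
    · rw [if_pos h, if_neg (not_lt.2 h.le), neg_neg]
  have hg0 : ∀ x, g x ≠ 0 := by
    intro x
    simp only [g]
    split_ifs <;> norm_num
  let L : S →ₗ[ℝ] A :=
    { toFun := fun f => ⟨fun x => g x * (f : X → ℝ) x, fun x => by
        have hf : (f : X → ℝ) (τ x) = (f : X → ℝ) x := f.2 x
        change g (τ x) * (f : X → ℝ) (τ x) = -(g x * (f : X → ℝ) x)
        rw [hg, hf]; ring⟩
      map_add' := fun f f' => by
        apply Subtype.ext
        funext x
        change g x * ((f : X → ℝ) x + (f' : X → ℝ) x) = g x * (f : X → ℝ) x + g x * (f' : X → ℝ) x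
        ring
      map_smul' := fun c f => by
        apply Subtype.ext
        funext x
        change g x * (c * (f : X → ℝ) x) = c * (g x * (f : X → ℝ) x)
        ring }
  have hL : Function.Injective L := by
    intro f f' hff
    apply Subtype.ext
    funext x
    have e1 := congrArg (fun a : A => (a : X → ℝ) x) hff
    exact mul_left_cancel₀ (hg0 x) e1
  have hSA : Module.finrank ℝ S ≤ Module.finrank ℝ A := LinearMap.finrank_le_finrank_of_injective hL
  have hlt : A < N := by
    refine lt_of_le_of_ne (fun f hf => hN f hf) ?_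
    rintro rfl
    obtain ⟨x⟩ := ‹Nonempty X›
    have e1 : (1 : ℝ) = -1 := h1N x
    norm_num at e1
  have hAN := Submodule.finrank_lt_finrank_of_lt hlt
  omega

theorem card_le_classes {X ι : Type*} [Fintype X] [Fintype ι] (N : Submodule ℝ (X → ℝ))
    (π : X → ι) (hπ : Function.Surjective π)
    (hN : ∀ i, (fun x => if π x = i then (1 : ℝ) else 0) ∈ N)
    (hsep : ∀ x y, x ≠ y → ∃ c ∈ N, (∀ z, c z = 0 ∨ c z = 1) ∧ c x ≠ c y) :
    Fintype.card ι ≤ Module.finrank ℝ N ∧
      Fintype.card X ≤ Fintype.card ι * 2 ^ (Module.finrank ℝ N - Fintype.card ι) := by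
  set e : ι → (X → ℝ) := fun i x => if π x = i then (1 : ℝ) else 0 with he
  have hli : LinearIndependent ℝ e := by
    rw [Fintype.linearIndependent_iff]
    intro g hg i
    obtain ⟨x, rfl⟩ := hπ i
    have h := congrFun hg x
    simpa [he, Finset.sum_apply] using h
  have hinj : Function.Injective e := hli.injective
  let T : Set (X → ℝ) := {c | c ∈ N ∧ ∀ z, c z = 0 ∨ c z = 1}
  have heT : Set.range e ⊆ T := by
    rintro _ ⟨i, rfl⟩
    refine ⟨hN i, fun z => ?_⟩
    by_cases h : π z = i
    · right; simp [he, h]
    · left; simp [he, h]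
  have hli' : LinearIndepOn ℝ id (Set.range e) := hli.linearIndepOn_id
  obtain ⟨b, hbT, heb, hTb, hb⟩ := exists_linearIndepOn_id_extension hli' heT
  have hbfin : b.Finite := LinearIndependent.set_finite_of_isNoetherian
    (by simpa [LinearIndepOn] using hb)
  have hbfin' : Finite b := hbfin
  have : Fintype b := Fintype.ofFinite b
  have hbli : LinearIndependent ℝ (fun x : b => (⟨x.1, (hbT x.2).1⟩ : N)) := by
    have h1 : LinearIndependent ℝ (fun x : b => x.1) := by simpa [LinearIndepOn] using hb
    exact LinearIndependent.of_comp N.subtype h1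
  have hbcard : Fintype.card b ≤ Module.finrank ℝ N := hbli.fintype_card_le_finrank
  have hecard : Fintype.card ι ≤ Module.finrank ℝ N := by
    have h1 : LinearIndependent ℝ (fun i : ι => (⟨e i, hN i⟩ : N)) :=
      LinearIndependent.of_comp N.subtype hli
    exact h1.fintype_card_le_finrank
  refine ⟨hecard, ?_⟩
  let b' : Set (X → ℝ) := b \ Set.range e
  have hb'fin : Finite b' := hbfin.subset Set.sdiff_subset
  have : Fintype b' := Fintype.ofFinite b'
  have hsum : Fintype.card b' + Fintype.card ι = Fintype.card b := by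
    have h1 : b'.ncard + (Set.range e).ncard = b.ncard :=
      Set.ncard_sdiff_add_ncard_of_subset heb hbfin
    have h2 : b'.ncard = Fintype.card b' := by
      rw [← Nat.card_coe_set_eq, Nat.card_eq_fintype_card]
    have h3 : b.ncard = Fintype.card b := by
      rw [← Nat.card_coe_set_eq, Nat.card_eq_fintype_card]
    have h4 : (Set.range e).ncard = Fintype.card ι := by
      rw [← Nat.card_coe_set_eq, Nat.card_range_of_injective hinj, Nat.card_eq_fintype_card]
    rw [h2, h3, h4] at h1
    exact h1
  let F : X → ι × (b' → Prop) := fun x => (π x, fun c => c.1 x = 1)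
  have hF : Function.Injective F := by
    intro x y hxy
    by_contra hne
    obtain ⟨c, hcN, hc01, hcxy⟩ := hsep x y hne
    have hxy1 : π x = π y := congrArg Prod.fst hxy
    have hxy2 : ∀ c : b', (c.1 x = 1) = (c.1 y = 1) := fun c =>
      congrFun (congrArg Prod.snd hxy) c
    have hall : ∀ d ∈ b, d x = d y := by
      intro d hd
      by_cases hde : d ∈ Set.range e
      · obtain ⟨i, rfl⟩ := hde
        simp only [he, hxy1]
      · have h2 := hxy2 ⟨d, hd, hde⟩
        rcases (hbT hd).2 x with h3 | h3
        · rcases (hbT hd).2 y with h4 | h4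
          · rw [h3, h4]
          · exfalso
            have h5 : d x = 1 := by rw [show (d x = 1) = (d y = 1) from h2]; exact h4
            rw [h3] at h5
            exact zero_ne_one h5
        · have h5 : d y = 1 := by rw [← show (d x = 1) = (d y = 1) from h2]; exact h3
          rw [h3, h5]
    have hspan : ∀ d ∈ Submodule.span ℝ b, d x = d y := by
      intro d hd
      induction hd using Submodule.span_induction with
      | mem d hd => exact hall d hd
      | zero => rfl
      | add u v _ _ hu hv => simp only [Pi.add_apply, hu, hv]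
      | smul a u _ hu => simp only [Pi.smul_apply, hu]
    exact hcxy (hspan c (hTb ⟨hcN, hc01⟩))
  have hcard := Fintype.card_le_of_injective F hF
  rw [Fintype.card_prod, Fintype.card_fun, Fintype.card_prop] at hcard
  refine hcard.trans (Nat.mul_le_mul_left _ (Nat.pow_le_pow_right (by norm_num) ?_))
  omega

/-- with `2 ≤ r = card ι` and `card X ≤ 2 r + 2`: cases `finrank N = r`, `r + 1`, `≥ r + 2` -/
theorem finrank_of_classes {X ι : Type*} [Fintype X] [Fintype ι] (N : Submodule ℝ (X → ℝ))
    (π : X → ι) (hπ : Function.Surjective π)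
    (hN : ∀ i, (fun x => if π x = i then (1 : ℝ) else 0) ∈ N)
    (hsep : ∀ x y, x ≠ y → ∃ c ∈ N, (∀ z, c z = 0 ∨ c z = 1) ∧ c x ≠ c y)
    (h2 : 2 ≤ Fintype.card ι) (hX : Fintype.card X ≤ 2 * Fintype.card ι + 2) :
    Fintype.card X + 2 ≤ 2 * Module.finrank ℝ N := by
  obtain ⟨h1, h3⟩ := card_le_classes N π hπ hN hsep
  by_cases hc0 : Module.finrank ℝ N = Fintype.card ι
  · rw [hc0, Nat.sub_self, pow_zero, mul_one] at h3
    omega
  by_cases hc1 : Module.finrank ℝ N = Fintype.card ι + 1
  · rw [hc1, Nat.add_sub_cancel_left, pow_one] at h3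
    omega
  · omega

end Pool.Agent.H97.Bun
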