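import Pool.Agent.H97.Bun.Kern
import Pool.Agent.H97.Bun.Two
import Pool.Agent.H97.Bun.TwoWt
import Pool.Agent.H97.Bun.Lin

/-!
# The space of balanced functions is large

Module of `MP_644d19_co` (balanced functions). `X` is the set of end states.

`half_two` (rank 2): `τ` of `exists_tau`. `X` is stable under `τ`: `z = run a p u'`, `σ p = k`,
`τ z = run a (τ p) u'` (`run_tau`; `u'` is valid by `Hyb.valid`). `τ` restricts to a free involution of
`X`; apply `finrank_of_anti`: an antisymmetric `g : X → ℝ` has the antisymmetric extension `ext X g`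
(if `z ∉ X` then `τ z ∉ X`), balanced by `anti_bal`; the constant `1` on `X`: `ext X 1` is `1` on `X`,
and `Bal` only involves values on `X` (the states `run a p (v ++ u')` with `p` of type `j` lie in
`X`: `run a p v` has type `k`), so its means are `1` (`mean_congr`, `mean_const`).

`half_three` (`card X ≤ 2 rank + 2`): choose `w₀` of minimal rank for the type `fin t k u`
(`exists_rank` at a state of this type), `ι = ↥(img σ a (fin t k u) w₀)`, of cardinality `rank`,
`π z = run a z w₀`. Elements of `X` have type `fin t k u`. `π` is surjective: by `bal_class` with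
`v = []`, `u' = u` the mean over the fibre of `k` of `if run a (run a p u) w₀ = z then 1 else 0`
is `1 / rank ≠ 0`, so some `p` of type `k` has `run a (run a p u) w₀ = z`. The indicator functions
are in `Nsp` by `bal_class` (congruence on `X`). Separation: `exists_sep` and `bal_class` for the word
`w` of `exists_sep` and `z = run a x w`.
-/

set_option autoImplicit false

namespace Pool.Agent.H97.Bun

open Pool.Agent.H75.Bunchy Pool.Agent.H26.Bunchy
open scoped Classical

variable {V K E : Type*} [Fintype V] [Fintype E] {s t : E → K} {σ : V → K} {a : V → E → V}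
  {e1 e2 : E} {pr : E → ℝ} {μ : V → ℝ}

omit [Fintype V] [Fintype E] in
lemma ends_type (hs : s e1 = s e2) (ht : t e1 = t e2) (ha : Typed s t σ a) {k : K} {u : List E}
    (hu : Valid s t k u) {z : V} (hz : z ∈ ends σ a e1 e2 k u) : σ z = fin t k u := by
  obtain ⟨p, u', hp, hu', rfl⟩ := hz
  have h1 := hu'.valid hs ht (k := k)
  rw [ha.run p u' (by rw [hp]; exact h1.1.2 hu), hp, h1.2]

lemma mem_Nsp_of_bal (hs : s e1 = s e2) (ht : t e1 = t e2) (ha : Typed s t σ a) {k : K}
    {u : List E} (hu : Valid s t k u) {X : Set V} (hX : X = ends σ a e1 e2 k u) {f : V → ℝ}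
    {c : ℝ} (h : Bal s t σ a μ e1 e2 k u f c) :
    (fun z : X => f z) ∈ Nsp s t σ a μ e1 e2 k u X := by
  refine ⟨c, fun j v u' hj hv hf hu' => ?_⟩
  rw [← h j v u' hj hv hf hu']
  refine mean_congr fun p hp => ?_
  have hmem : run a p (v ++ u') ∈ X := by
    rw [hX]
    refine ⟨run a p v, u', ?_, hu', ?_⟩
    · rw [ha.run p v (by rw [hp]; exact hv), hp, hf]
    · rw [run_append]
  unfold ext
  rw [dif_pos hmem]

lemma half_two (hs : s e1 = s e2) (ht : t e1 = t e2) (ha : Typed s t σ a) (hcn : Conn s σ a)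
    (h : Stat s σ a pr μ) (hno : NoStable s t σ a) (hr : rank s t σ a = 2) {k : K}
    (hk : ∃ p, σ p = k) {u : List E} (hu : Valid s t k u) {X : Set V}
    (hX : X = ends σ a e1 e2 k u) :
    Fintype.card X + 2 ≤ 2 * Module.finrank ℝ (Nsp s t σ a μ e1 e2 k u X) := by
  obtain ⟨τ, h1, h2, h3, h4⟩ := exists_tau ha hcn hno hr
  have hst : ∀ z, z ∈ X → τ z ∈ X := by
    intro z hz
    rw [hX] at hz ⊢
    obtain ⟨p, u', hp, hu', rfl⟩ := hz
    refine ⟨τ p, u', by rw [h3, hp], hu', ?_⟩
    exact run_tau ha h4 u' p (by rw [hp]; exact (hu'.valid hs ht (k := k)).1.2 hu)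
  have hne : Nonempty X := by
    obtain ⟨p, hp⟩ := hk
    refine ⟨⟨run a p u, ?_⟩⟩
    rw [hX]
    exact ⟨p, u, hp, hyb_refl u, rfl⟩
  refine finrank_of_anti (fun z : X => (⟨τ z, hst z z.2⟩ : X)) (fun z => Subtype.ext (h1 z))
    (fun z hz => h2 z (congrArg Subtype.val hz)) _ ?_ ?_
  · intro g hg
    refine ⟨0, anti_bal hs ht ha hcn h h1 h3 h4 hu ?_⟩
    intro z
    unfold ext
    by_cases hz : z ∈ X
    · rw [dif_pos hz, dif_pos (hst z hz)]
      exact hg ⟨z, hz⟩
    · have hz' : τ z ∉ X := fun hh => hz (by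
        have := hst _ hh
        rwa [h1] at this)
      rw [dif_neg hz, dif_neg hz', neg_zero]
  · refine mem_Nsp_of_bal (f := fun _ => 1) (c := 1) hs ht ha hu hX ?_
    intro j v u' hj hv hf hu'
    exact mean_const h.mu_pos hj 1

lemma half_three (hs : s e1 = s e2) (ht : t e1 = t e2) (ha : Typed s t σ a) (hcn : Conn s σ a)
    (h : Stat s σ a pr μ) (hsu : ∀ e, ∃ p, s e = σ p) (hno : NoStable s t σ a)
    (hr : 2 ≤ rank s t σ a) {k : K} (hk : ∃ p, σ p = k) {u : List E} (hu : Valid s t k u)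
    {X : Set V} (hX : X = ends σ a e1 e2 k u) (hc : Fintype.card X ≤ 2 * rank s t σ a + 2) :
    Fintype.card X + 2 ≤ 2 * Module.finrank ℝ (Nsp s t σ a μ e1 e2 k u X) := by
  obtain ⟨p0, hp0⟩ := hk
  have hq0 : σ (run a p0 u) = fin t k u := by
    rw [ha.run p0 u (by rw [hp0]; exact hu), hp0]
  obtain ⟨w₀, hw₀, hr₀⟩ := exists_rank ha hcn (run a p0 u)
  rw [hq0] at hw₀ hr₀
  have hty : ∀ z : X, σ z.1 = fin t k u := by
    intro z
    refine ends_type hs ht ha hu (e1 := e1) (e2 := e2) ?_
    rw [← hX]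
    exact z.2
  set I : Set V := img σ a (fin t k u) w₀ with hI
  have hcard : Fintype.card I = rank s t σ a := by
    rw [← hr₀, ← Nat.card_eq_fintype_card, Nat.card_coe_set_eq]
  let π : X → I := fun z => ⟨run a z.1 w₀, ⟨z.1, hty z, rfl⟩⟩
  have hπv : ∀ z : X, (π z : V) = run a z.1 w₀ := fun z => rfl
  have hπ : Function.Surjective π := by
    rintro ⟨z, hz⟩
    have hb := bal_class (e1 := e1) (e2 := e2) hs ht ha hcn h hsu hu hw₀ hr₀ hz k [] u
      ⟨p0, hp0⟩ trivial rfl (hyb_refl u)
    by_contra hcon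
    push Not at hcon
    have h0 : mean σ μ k (fun p => if run a (run a p ([] ++ u)) w₀ = z then (1 : ℝ) else 0) =
        mean σ μ k (fun _ => (0 : ℝ)) := by
      refine mean_congr fun p hp => ?_
      rw [if_neg]
      intro hpz
      rw [List.nil_append] at hpz
      have hx : run a p u ∈ X := by
        rw [hX]
        exact ⟨p, u, hp, hyb_refl u, rfl⟩
      exact hcon ⟨run a p u, hx⟩ (Subtype.ext hpz)
    rw [h0, mean_const h.mu_pos ⟨p0, hp0⟩] at hb
    have hr' : (0 : ℝ) < rank s t σ a := by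
      have : 0 < rank s t σ a := by omega
      exact_mod_cast this
    have : (0 : ℝ) < 1 / (rank s t σ a : ℝ) := by positivity
    linarith
  refine finrank_of_classes (Nsp s t σ a μ e1 e2 k u X) π hπ ?_ ?_ ?_ ?_
  · rintro ⟨z, hz⟩
    have hb := bal_class (e1 := e1) (e2 := e2) hs ht ha hcn h hsu hu hw₀ hr₀ hz
    have hm := mem_Nsp_of_bal hs ht ha hu hX hb
    refine Eq.subst (motive := fun f => f ∈ Nsp s t σ a μ e1 e2 k u X) ?_ hm
    funext x
    by_cases hx : run a x.1 w₀ = z
    · rw [if_pos hx, if_pos (Subtype.ext hx)]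
    · rw [if_neg hx, if_neg (fun hh => hx (congrArg Subtype.val hh))]
  · intro x y hxy
    have hne : x.1 ≠ y.1 := fun hh => hxy (Subtype.ext hh)
    have htt : σ x.1 = σ y.1 := by rw [hty x, hty y]
    obtain ⟨w, hw, hrw, hsep⟩ := exists_sep ha hcn hno htt hne
    rw [hty x] at hw hrw
    have hz : run a x.1 w ∈ img σ a (fin t k u) w := ⟨x.1, hty x, rfl⟩
    have hb := bal_class (e1 := e1) (e2 := e2) hs ht ha hcn h hsu hu hw hrw hz
    have hm := mem_Nsp_of_bal hs ht ha hu hX hb
    refine ⟨_, hm, fun z => ?_, ?_⟩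
    · split_ifs
      · exact Or.inr rfl
      · exact Or.inl rfl
    · rw [if_pos rfl, if_neg (fun hh => hsep hh.symm)]
      exact one_ne_zero
  · rw [hcard]
    exact hr
  · rw [hcard]
    exact hc

/-- at most eight end states: the dimension is more than half -/
theorem half (hs : s e1 = s e2) (ht : t e1 = t e2) (ha : Typed s t σ a) (hcn : Conn s σ a)
    (h : Stat s σ a pr μ) (hsu : ∀ e, ∃ p, s e = σ p) (hno : NoStable s t σ a)
    (hr : 2 ≤ rank s t σ a) {k : K} (hk : ∃ p, σ p = k) {u : List E} (hu : Valid s t k u)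
    {X : Set V} (hX : X = ends σ a e1 e2 k u) (hc : Fintype.card X ≤ 8) :
    Fintype.card X + 2 ≤ 2 * Module.finrank ℝ (Nsp s t σ a μ e1 e2 k u X) := by
  rcases Nat.lt_or_ge (rank s t σ a) 3 with h3 | h3
  · exact half_two hs ht ha hcn h hno (by omega) hk hu hX
  · exact half_three hs ht ha hcn h hsu hno hr hk hu hX (by omega)

end Pool.Agent.H97.Bun
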