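import Pool.Agent.H97.Bun.Defs

/-!
# Classes of words of minimal rank are balanced

Module of `MP_644d19_co` (balanced functions).

`class_mean`: put `c z = Finset.univ.filter (fun p => σ p = k ∧ run a p w = z)`, `r = rank`.
`c z` is collapsible: `Coll s t σ a (c z)` (word `w`), so `r * ∑ p ∈ c z, wt σ μ p ≤ 1` by
`rank_mul_le`. The `c z`, `z ∈ img σ a k w`, are disjoint with union the fibre of `k`, so
`∑ z ∈ (img σ a k w).toFinset, ∑ p ∈ c z, wt σ μ p = 1` (`sum_wt_fibre`, `Finset.sum_fiberwise_of_maps_to`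
or `Finset.sum_biUnion`), and there are `r` of them: every one is exactly `1 / r`. (`r > 0` since the
image is nonempty.)

`img_eq_of_rank`: the image under `v ++ u' ++ w` is contained in the image under `w`
(`img_append_subset`), it has at least `rank` elements (`rank_le`), so they are equal
(`Set.eq_of_subset_of_ncard_le`).

`bal_class`: for `v, u'` as in `Bal` apply `class_mean` to the word `v ++ u' ++ w` (its image is the
image of `w`, `img_eq_of_rank`); `run a p (v ++ u' ++ w) = run a (run a p (v ++ u')) w`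
(`run_append`). Validity and `fin` of `u'`: `Hyb.valid hs ht`, `valid_append`, `fin_append`.

`exists_sep`: `(z, z')` is not stable, so there is a valid `v` such that no `u` merges; take `u` of
minimal rank for the type `fin t (σ z) v` (`exists_rank` at the state `run a z v`), `w = v ++ u`:
its image is contained in the image of `u`, so has `rank` elements.
-/

set_option autoImplicit false

namespace Pool.Agent.H97.Bun

open Pool.Agent.H75.Bunchy Pool.Agent.H26.Bunchy
open scoped Classical

variable {V K E : Type*} [Fintype V] [Fintype E] {s t : E → K} {σ : V → K} {a : V → E → V}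
  {e1 e2 : E} {pr : E → ℝ} {μ : V → ℝ}

lemma class_mean (ha : Typed s t σ a) (hcn : Conn s σ a) (h : Stat s σ a pr μ)
    (hsu : ∀ e, ∃ p, s e = σ p) {k : K} (hk : ∃ p, σ p = k) {w : List E} (hw : Valid s t k w)
    (hr : (img σ a k w).ncard = rank s t σ a) {z : V} (hz : z ∈ img σ a k w) :
    mean σ μ k (fun p => if run a p w = z then 1 else 0) = 1 / (rank s t σ a : ℝ) := by
  have hfin : (img σ a k w).Finite := Set.toFinite _
  have hmem : ∀ y, y ∈ hfin.toFinset ↔ y ∈ img σ a k w := fun y => Set.Finite.mem_toFinset _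
  have hcard : (hfin.toFinset.card : ℝ) = rank s t σ a := by
    rw [← hr, Set.ncard_eq_toFinset_card _ hfin]
  have hpos : (0 : ℝ) < rank s t σ a := by
    rw [← hcard, Nat.cast_pos]
    exact Finset.card_pos.2 ⟨z, (hmem z).2 hz⟩
  have hcoll : ∀ y, (rank s t σ a : ℝ) *
      mean σ μ k (fun p => if run a p w = y then 1 else 0) ≤ 1 := by
    intro y
    have h1 : mean σ μ k (fun p => if run a p w = y then 1 else 0) =
        ∑ p ∈ Finset.univ.filter (fun p => σ p = k ∧ run a p w = y), wt σ μ p := by
      unfold mean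
      rw [Finset.sum_filter]
      refine Finset.sum_congr rfl fun p _ => ?_
      by_cases h2 : σ p = k <;> by_cases h3 : run a p w = y <;> simp [h2, h3]
    rw [h1]
    refine rank_mul_le ha hcn h hsu ⟨k, ?_, w, hw, ?_⟩ z
    · intro x hx
      exact (Finset.mem_filter.1 hx).2.1
    · intro x hx x' hx'
      rw [(Finset.mem_filter.1 hx).2.2, (Finset.mem_filter.1 hx').2.2]
  have hsum : ∑ y ∈ hfin.toFinset, mean σ μ k (fun p => if run a p w = y then 1 else 0) = 1 := by
    refine Eq.trans ?_ (mean_const (σ := σ) h.mu_pos hk (1 : ℝ))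
    unfold mean
    rw [Finset.sum_comm]
    refine Finset.sum_congr rfl fun p _ => ?_
    by_cases h2 : σ p = k
    · simp only [h2, if_true]
      rw [← Finset.mul_sum, Finset.sum_ite_eq, if_pos]
      rw [hmem]
      exact ⟨p, h2, rfl⟩
    · simp only [h2, if_false, Finset.sum_const_zero]
  have h0 : ∑ y ∈ hfin.toFinset, (1 - (rank s t σ a : ℝ) *
      mean σ μ k (fun p => if run a p w = y then 1 else 0)) = 0 := by
    rw [Finset.sum_sub_distrib, ← Finset.mul_sum, hsum, Finset.sum_const, nsmul_eq_mul, hcard]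
    ring
  rw [Finset.sum_eq_zero_iff_of_nonneg (fun y _ => sub_nonneg.2 (hcoll y))] at h0
  have h1 := h0 z ((hmem z).2 hz)
  rw [eq_div_iff hpos.ne', mul_comm]
  linarith

omit [Fintype E] in
lemma img_eq_of_rank (ha : Typed s t σ a) {j k : K} (hj : ∃ p, σ p = j) {v w : List E}
    (hv : Valid s t j v) (hf : fin t j v = k) (hw : Valid s t k w)
    (hr : (img σ a k w).ncard = rank s t σ a) : img σ a j (v ++ w) = img σ a k w := by
  have h1 := img_append_subset ha j v w hv
  rw [hf] at h1
  refine Set.eq_of_subset_of_ncard_le h1 ?_ (Set.toFinite _)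
  rw [hr]
  obtain ⟨p, rfl⟩ := hj
  refine rank_le p _ ?_
  rw [valid_append, hf]
  exact ⟨hv, hw⟩

lemma bal_class (hs : s e1 = s e2) (ht : t e1 = t e2) (ha : Typed s t σ a) (hcn : Conn s σ a)
    (h : Stat s σ a pr μ) (hsu : ∀ e, ∃ p, s e = σ p) {k : K} {u w : List E}
    (hu : Valid s t k u) (hw : Valid s t (fin t k u) w)
    (hr : (img σ a (fin t k u) w).ncard = rank s t σ a) {z : V} (hz : z ∈ img σ a (fin t k u) w) :
    Bal s t σ a μ e1 e2 k u (fun y => if run a y w = z then 1 else 0)
      (1 / (rank s t σ a : ℝ)) := by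
  intro j v u' hj hv hf hhyb
  obtain ⟨h1, h2⟩ := Hyb.valid hs ht hhyb (k := k)
  have hvu : Valid s t j (v ++ u') := by
    rw [valid_append, hf]
    exact ⟨hv, h1.2 hu⟩
  have hfu : fin t j (v ++ u') = fin t k u := by
    rw [fin_append, hf, h2]
  have himg := img_eq_of_rank ha hj hvu hfu hw hr
  have hval : Valid s t j ((v ++ u') ++ w) := by
    rw [valid_append, hfu]
    exact ⟨hvu, hw⟩
  have h3 := class_mean ha hcn h hsu hj hval (by rw [himg]; exact hr) (z := z)
    (by rw [himg]; exact hz)
  rw [← h3]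
  refine mean_congr fun p _ => ?_
  simp only [run_append]

omit [Fintype E] in
lemma exists_sep (ha : Typed s t σ a) (hcn : Conn s σ a) (hno : NoStable s t σ a) {z z' : V}
    (hzz : σ z = σ z') (hne : z ≠ z') : ∃ w, Valid s t (σ z) w ∧
      (img σ a (σ z) w).ncard = rank s t σ a ∧ run a z w ≠ run a z' w := by
  have h1 : ¬ Stable s t σ a z z' := fun h => hne (hno z z' h)
  unfold Stable at h1
  push Not at h1
  obtain ⟨v, hv, hsep⟩ := h1 hzz
  obtain ⟨u, hu, hru⟩ := exists_rank ha hcn (run a z v)
  rw [ha.run z v hv] at hu hru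
  have hval : Valid s t (σ z) (v ++ u) := by
    rw [valid_append]
    exact ⟨hv, hu⟩
  refine ⟨v ++ u, hval, le_antisymm ?_ (rank_le z _ hval), hsep u hu⟩
  rw [← hru]
  exact Set.ncard_le_ncard (img_append_subset ha _ v u hv) (Set.toFinite _)

end Pool.Agent.H97.Bun
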