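import Pool.Agent.H97.Bun.Half
import Pool.Agent.H97.Bun.COf

/-!
# Two adjacent automata without stable pair: the total case

Module of `MP_644d19_co` (balanced functions). Let `X = ends σ a e1 e2 k u`, `a' = flip e1 e2 {x} a`,
`N`, `N'` the spaces `Nsp` of `a`, `a'` on `X`. Both automata are typed and strongly connected, `μ` is
stationary for both (`stat_flip`), both ranks are at least 2 (`two_le_rank`; for `a'` at `x`:
`flip_left`, `flip_right`), the end states are the same (`ends_flip`). By `half`,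
`card X + 2 ≤ 2 finrank N`, `2 finrank N'`. By `const_of_bal` `N ⊓ N' ≤ span {1}`, so
`finrank (N ⊓ N') ≤ 1`; `Submodule.finrank_sup_add_finrank_inf_eq` and
`finrank (N ⊔ N') ≤ card X` give `card X + 2 ≤ card X + 1`.
-/

set_option autoImplicit false

namespace Pool.Agent.H97.Bun

open Pool.Agent.H75.Bunchy Pool.Agent.H26.Bunchy
open scoped Classical

variable {V K E : Type*} [Fintype V] [Fintype E] {s t : E → K} {σ : V → K} {a : V → E → V}
  {e1 e2 : E} {pr : E → ℝ} {μ : V → ℝ}

theorem flip_total (hs : s e1 = s e2) (ht : t e1 = t e2) (ha : Typed s t σ a)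
    (hcn : Conn s σ a) (h : Stat s σ a pr μ) (hpr : pr e1 = pr e2) (hsu : ∀ e, ∃ p, s e = σ p)
    {x : V} (hx : s e1 = σ x) (hne : a x e1 ≠ a x e2) (hT : Total s σ a (a x e1) (a x e2))
    {k : K} (hk : ∃ p, σ p = k) {u : List E} (hu : Valid s t k u)
    (hc : (ends σ a e1 e2 k u).ncard ≤ 8) (hno : NoStable s t σ a) :
    ¬ NoStable s t σ (flip e1 e2 {x} a) := by
  intro hno'
  have ha' : Typed s t σ (flip e1 e2 {x} a) := ha.flip hs ht {x}
  have hcn' : Conn s σ (flip e1 e2 {x} a) := hcn.flip hs {x}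
  have h' : Stat s σ (flip e1 e2 {x} a) pr μ := stat_flip h hs hpr {x}
  have hr : 2 ≤ rank s t σ a := two_le_rank ha hcn hno hs.symm ht.symm hx hne
  have hr' : 2 ≤ rank s t σ (flip e1 e2 {x} a) := by
    refine two_le_rank ha' hcn' hno' hs.symm ht.symm hx ?_
    rw [flip_left (Set.mem_singleton x), flip_right (Set.mem_singleton x)]
    exact hne.symm
  obtain ⟨X, hX⟩ : ∃ X : Set V, X = ends σ a e1 e2 k u := ⟨_, rfl⟩
  have hX' : X = ends σ (flip e1 e2 {x} a) e1 e2 k u := by rw [ends_flip]; exact hX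
  have hcX : Fintype.card X ≤ 8 := by
    rw [← Nat.card_eq_fintype_card]
    rw [hX]
    exact hc
  have hN := half hs ht ha hcn h hsu hno hr hk hu hX hcX
  have hN' := half hs ht ha' hcn' h' hsu hno' hr' hk hu hX' hcX
  have hsum := Submodule.finrank_sup_add_finrank_inf_eq
    (Nsp s t σ a μ e1 e2 k u X) (Nsp s t σ (flip e1 e2 {x} a) μ e1 e2 k u X)
  have hsup : Module.finrank ℝ ↥(Nsp s t σ a μ e1 e2 k u X ⊔
      Nsp s t σ (flip e1 e2 {x} a) μ e1 e2 k u X) ≤ Fintype.card X := by
    have := Submodule.finrank_le (Nsp s t σ a μ e1 e2 k u X ⊔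
      Nsp s t σ (flip e1 e2 {x} a) μ e1 e2 k u X)
    rwa [Module.finrank_fintype_fun_eq_card] at this
  have hinf : Module.finrank ℝ ↥(Nsp s t σ a μ e1 e2 k u X ⊓
      Nsp s t σ (flip e1 e2 {x} a) μ e1 e2 k u X) ≤ 1 := by
    have hle : (Nsp s t σ a μ e1 e2 k u X ⊓ Nsp s t σ (flip e1 e2 {x} a) μ e1 e2 k u X) ≤
        Submodule.span ℝ {(fun _ : X => (1 : ℝ))} := by
      rintro g ⟨⟨c, hg⟩, ⟨c', hg'⟩⟩
      rw [Submodule.mem_span_singleton]
      refine ⟨c, ?_⟩
      funext z
      have hz : (z : V) ∈ ends σ a e1 e2 k u := by rw [← hX]; exact z.2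
      have h1 := const_of_bal h.mu_pos hs ht ha hx hT hk u (ext X g) c c' hg hg' z hz
      have h2 : ext X g z = g z := by
        unfold ext
        rw [dif_pos z.2]
      rw [h2] at h1
      simp [h1]
    refine (Submodule.finrank_mono hle).trans ?_
    refine (finrank_span_le_card (R := ℝ) {(fun _ : X => (1 : ℝ))}).trans ?_
    simp
  omega

end Pool.Agent.H97.Bun
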