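import Pool.Agent.H97.Bun.Trans
import Pool.Agent.H97.Bun.Tot

/-!
# Two adjacent automata without stable pair: the general case

Module of `MP_644d19_co` (balanced functions). Let `y = a x e1`, `y' = a x e2`. `Cgr` is the
smallest congruence that contains `(y, y')`. New types: the classes `K' = V / Cgr`; new letters
`E' = {(c, e) | s e = σ c.out}` with `s' (c, e) = c`, `t' (c, e) = [a c.out e]`; the new automaton is
`b p (c, e) = a p e`. It is typed (`cgr_letter`), strongly connected, has no stable pair if `a` has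
none (`noStable_trans`, `φ (c, e) = e`), and for `e1' = ([x], e1)`, `e2' = ([x], e2)` the automaton
`flip e1' e2' {x} b` acts by valid letters as `flip e1 e2 {x} a`, so it has no stable pair if
`flip e1 e2 {x} a` has none (`noStable_trans`, with `Typed.flip`). `s' e1' = s' e2'`;
`t' e1' = t' e2'` as `c.out` is congruent to `x` and `y` to `y'`. The pair `(b x e1', b x e2')`
generates the total congruence of the new automaton: a congruence `R` of `b` that contains it, is a
congruence of `a` that contains `(y, y')` (finer than `Cgr`, so preserving `σ`), so contains `Cgr`.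
Stationary weights: `exists_pr` for `s'` and `exists_stat` (every type has a letter:
`exists_letter`). The word: `lift_word` at a state `p₀` of type `k`; its end states are end states of
`u` (`run_map`, `hyb_map`, `Hyb.valid`), so at most 8. Apply `flip_total`.
-/

set_option autoImplicit false

namespace Pool.Agent.H97.Bun

open Pool.Agent.H75.Bunchy Pool.Agent.H26.Bunchy
open scoped Classical

section
variable {V K E : Type*} {s t : E → K} {σ : V → K} {a : V → E → V} {y y' : V}

/-- the congruence generated by the pair `(y, y')` -/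
def Cgr (s : E → K) (σ : V → K) (a : V → E → V) (y y' : V) (p q : V) : Prop :=
  ∀ R : V → V → Prop, Equivalence R → (∀ p q, R p q → σ p = σ q) →
    (∀ p q e, R p q → s e = σ p → R (a p e) (a q e)) → R y y' → R p q

lemma cgr_equiv (s : E → K) (σ : V → K) (a : V → E → V) (y y' : V) :
    Equivalence (Cgr s σ a y y') :=
  ⟨fun _ _ hR _ _ _ => hR.refl _, fun h R hR h1 h2 h3 => hR.symm (h R hR h1 h2 h3),
    fun h h' R hR h1 h2 h3 => hR.trans (h R hR h1 h2 h3) (h' R hR h1 h2 h3)⟩

lemma cgr_type (ha : Typed s t σ a) (hyy : σ y = σ y') {p q : V} (h : Cgr s σ a y y' p q) :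
    σ p = σ q := by
  refine h (fun p q => σ p = σ q) ⟨fun _ => rfl, fun h => h.symm, fun h h' => h.trans h'⟩
    (fun _ _ h => h) (fun p q e hpq he => ?_) hyy
  rw [ha p e he, ha q e (by rw [← hpq]; exact he)]

lemma cgr_letter {p q : V} (h : Cgr s σ a y y' p q) {e : E} (he : s e = σ p) :
    Cgr s σ a y y' (a p e) (a q e) :=
  fun R hR h1 h2 h3 => h2 p q e (h R hR h1 h2 h3) he

lemma cgr_mem : Cgr s σ a y y' y y' := fun _ _ _ _ h3 => h3

/-- the classes as types -/
def cset (s : E → K) (σ : V → K) (a : V → E → V) (y y' : V) : Setoid V :=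
  ⟨Cgr s σ a y y', cgr_equiv s σ a y y'⟩

/-- the new letters -/
def NewE (s : E → K) (σ : V → K) (a : V → E → V) (y y' : V) : Type _ :=
  {c : Quotient (cset s σ a y y') × E // s c.2 = σ (Quotient.out c.1)}

end

variable {V K E : Type*} [Finite V] [Finite E] {s t : E → K} {σ : V → K} {a : V → E → V}
  {e1 e2 : E}

/-- **Two adjacent colourings.** If some word has at most eight end states, two automata that
differ by one exchange cannot both be without stable pair. -/
theorem flip_eight (hs : s e1 = s e2) (ht : t e1 = t e2) (ha : Typed s t σ a)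
    (hcn : Conn s σ a) {x : V} (hx : s e1 = σ x) (hne : a x e1 ≠ a x e2)
    {k : K} (hk : ∃ p, σ p = k) {u : List E} (hu : Valid s t k u)
    (hc : (ends σ a e1 e2 k u).ncard ≤ 8) (hno : NoStable s t σ a) :
    ¬ NoStable s t σ (flip e1 e2 {x} a) := by
  have hV : Fintype V := Fintype.ofFinite V
  have hx2 : s e2 = σ x := by rw [← hs]; exact hx
  set y := a x e1 with hy
  set y' := a x e2 with hy'
  have hyy : σ y = σ y' := by rw [hy, hy', ha x e1 hx, ha x e2 hx2, ht]
  -- new types and letters
  let S : Setoid V := cset s σ a y y'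
  let σ' : V → Quotient S := fun p => Quotient.mk S p
  let s' : NewE s σ a y y' → Quotient S := fun f => f.1.1
  let t' : NewE s σ a y y' → Quotient S := fun f => Quotient.mk S (a (Quotient.out f.1.1) f.1.2)
  let φ : NewE s σ a y y' → E := fun f => f.1.2
  let b : V → NewE s σ a y y' → V := fun p f => a p f.1.2
  have hfin : Finite (NewE s σ a y y') := by
    unfold NewE
    infer_instance
  have hE : Fintype (NewE s σ a y y') := Fintype.ofFinite _
  have hout : ∀ p, Cgr s σ a y y' (Quotient.out (σ' p)) p := fun p => Quotient.mk_out (s := S) p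
  have hout' : ∀ p, Cgr s σ a y y' p (Quotient.out (σ' p)) := fun p =>
    (cgr_equiv s σ a y y').symm (hout p)
  have hfine : ∀ p q, σ' p = σ' q → σ p = σ q := fun p q h =>
    cgr_type ha hyy (Quotient.exact h : Cgr s σ a y y' p q)
  have hact : ∀ p f, s' f = σ' p → s (φ f) = σ p ∧ b p f = a p (φ f) := by
    intro p f hf
    refine ⟨?_, rfl⟩
    have h1 : s (φ f) = σ (Quotient.out (s' f)) := f.2
    rw [h1, hf]
    exact cgr_type ha hyy (hout p)
  have hlift : ∀ p e, s e = σ p → ∃ f, s' f = σ' p ∧ φ f = e := by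
    intro p e he
    refine ⟨⟨(σ' p, e), ?_⟩, rfl, rfl⟩
    rw [he]
    exact cgr_type ha hyy (hout' p)
  have hb : Typed s' t' σ' b := by
    intro p f hf
    have h1 : s (φ f) = σ p := (hact p f hf).1
    have h2 : Cgr s σ a y y' (a p (φ f)) (a (Quotient.out (s' f)) (φ f)) := by
      rw [hf]
      exact cgr_letter (hout' p) h1
    exact Quotient.sound (s := S) h2
  have hxe1 : s e1 = σ (Quotient.out (σ' x)) := by
    rw [hx]; exact cgr_type ha hyy (hout' x)
  have hxe2 : s e2 = σ (Quotient.out (σ' x)) := by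
    rw [hx2]; exact cgr_type ha hyy (hout' x)
  let e1' : NewE s σ a y y' := ⟨(σ' x, e1), hxe1⟩
  let e2' : NewE s σ a y y' := ⟨(σ' x, e2), hxe2⟩
  have hs' : s' e1' = s' e2' := rfl
  have ht' : t' e1' = t' e2' := by
    rw [← hb x e1' rfl, ← hb x e2' rfl]
    exact Quotient.sound (s := S) (cgr_mem : Cgr s σ a y y' y y')
  -- the exchanged letters
  have hsw : ∀ f, s' f = σ' x → φ (Equiv.swap e1' e2' f) = Equiv.swap e1 e2 (φ f) := by
    intro f hf
    by_cases h1 : f = e1'
    · rw [h1, Equiv.swap_apply_left]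
      change e2 = Equiv.swap e1 e2 e1
      rw [Equiv.swap_apply_left]
    · by_cases h2 : f = e2'
      · rw [h2, Equiv.swap_apply_right]
        change e1 = Equiv.swap e1 e2 e2
        rw [Equiv.swap_apply_right]
      · rw [Equiv.swap_apply_of_ne_of_ne h1 h2, Equiv.swap_apply_of_ne_of_ne]
        · intro h3
          exact h1 (Subtype.ext (Prod.ext hf h3))
        · intro h3
          exact h2 (Subtype.ext (Prod.ext hf h3))
  have hsw' : ∀ f, φ (Equiv.swap e1' e2' f) = φ f ∨
      φ (Equiv.swap e1' e2' f) = Equiv.swap e1 e2 (φ f) := by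
    intro f
    by_cases hf : s' f = σ' x
    · exact Or.inr (hsw f hf)
    · left
      rw [Equiv.swap_apply_of_ne_of_ne]
      · rintro rfl; exact hf rfl
      · rintro rfl; exact hf rfl
  have hact2 : ∀ p f, s' f = σ' p → s (φ f) = σ p ∧
      flip e1' e2' {x} b p f = flip e1 e2 {x} a p (φ f) := by
    intro p f hf
    refine ⟨(hact p f hf).1, ?_⟩
    by_cases hp : p = x
    · subst hp
      rw [flip_of_mem (Set.mem_singleton p), flip_of_mem (Set.mem_singleton p)]
      change a p (φ (Equiv.swap e1' e2' f)) = _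
      rw [hsw f hf]
    · have hp' : p ∉ ({x} : Set V) := by simpa using hp
      rw [flip_of_notMem hp', flip_of_notMem hp']
  have hcn' : Conn s' σ' b := conn_trans hact hlift hcn
  have hno' : NoStable s' t' σ' b := noStable_trans ha hb hact hlift hfine hno
  have hne' : b x e1' ≠ b x e2' := hne
  have hT : Total s' σ' b (b x e1') (b x e2') := by
    intro R hR h1 h2 h3 p q hpq
    have hc : Cgr s σ a y y' p q := Quotient.exact hpq
    refine hc R hR (fun p q h => hfine p q (h1 p q h)) (fun p q e h he => ?_) h3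
    obtain ⟨f, hf1, hf2⟩ := hlift p e he
    have h4 := h2 p q f h hf1
    rw [← hf2]
    exact h4
  -- stationary weights
  obtain ⟨pr, hpr0, hpr1, hpr2⟩ := exists_pr s'
  have hne0 : Nonempty V := ⟨x⟩
  obtain ⟨μ, hμ⟩ := exists_stat hb hcn' hpr0 (fun p => by
    refine hpr2 (σ' p) ?_
    exact exists_letter hcn' hne' p)
  -- the word
  obtain ⟨p₀, hp₀⟩ := hk
  obtain ⟨u', hu', hm⟩ := lift_word ha hb hact hlift u p₀ (by rw [hp₀]; exact hu)
  have hsub : ends σ' b e1' e2' (σ' p₀) u' ⊆ ends σ a e1 e2 k u := by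
    rintro z ⟨p, w', hp, hw, rfl⟩
    have hval : Valid s' t' (σ' p) w' := by
      rw [hp]; exact (hw.valid hs' ht').1.2 hu'
    refine ⟨p, w'.map φ, ?_, ?_, ?_⟩
    · rw [hfine p p₀ hp, hp₀]
    · rw [← hm]
      exact hyb_map hsw' hw
    · exact (run_map ha hb hact w' p hval).2.symm
  have hc' : (ends σ' b e1' e2' (σ' p₀) u').ncard ≤ 8 :=
    (Set.ncard_le_ncard hsub (Set.toFinite _)).trans hc
  intro h2
  exact flip_total hs' ht' hb hcn' hμ (hpr1 _ _ hs')
    (fun f => ⟨Quotient.out (s' f), (Quotient.out_eq (s' f)).symm⟩) rfl hne' hT ⟨p₀, rfl⟩ hu' hc'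
    hno' (noStable_trans (Typed.flip hs ht ha {x}) (Typed.flip hs' ht' hb {x}) hact2 hlift hfine h2)

end Pool.Agent.H97.Bun
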