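import Pool.Agent.H97.Bun.Loc
import Pool.Agent.H97.Bun.AlongZ

/-!
# Bunchy synchronizing factors when some walk has at most eight end vertices
-/

set_option autoImplicit false

namespace Pool.Agent.H97.Bun

open Pool.Agent.H75.Bunchy Pool.Agent.H26.Bunchy
open scoped Classical

/-- General induction: a condition that passes to the quotients by stable pairs and that gives, as
long as the right resolver is not bijective on followers, a recolouring with a stable pair. -/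
theorem relative_of (H : Graph) (P : ∀ G : Graph, (G.V → H.V) → Prop)
    (himg : ∀ (G Q : Graph) (Φ : RightResolver G H) (Ψ : RightResolver G Q) (θ : Q.V → H.V),
      (∀ p, θ (Ψ.v p) = Φ.v p) → P G Φ.v → P Q θ)
    (hstep : ∀ (G : Graph) (Φ : RightResolver G H), G.StronglyConnected → P G Φ.v →
      ∀ (p₀ : G.V) (g g' : H.E), H.src g = Φ.v p₀ → H.src g' = H.src g → H.tgt g' = H.tgt g →
      Φ.act p₀ g ≠ Φ.act p₀ g' →
      ∃ Φ' : RightResolver G H, Φ'.v = Φ.v ∧ ¬ NoStable H.src H.tgt Φ'.v Φ'.act) :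
    ∀ (n : ℕ) (G : Graph), Nat.card G.V = n → G.StronglyConnected →
    ∀ Φ : RightResolver G H, P G Φ.v →
    ∃ (Q : Graph) (Θ : RightResolver Q H) (Ψ : RightResolver G Q), Ψ.Synchronizing ∧
      (∀ p, Θ.v (Ψ.v p) = Φ.v p) ∧
      ∀ c : Q.V, Set.BijOn Θ.v (Q.Followers c) (H.Followers (Θ.v c)) := by
  intro n
  induction n using Nat.strong_induction_on with
  | _ n ih =>
  intro G hn hG Φ hgood
  by_cases hb : ∀ c : G.V, Set.BijOn Φ.v (G.Followers c) (H.Followers (Φ.v c))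
  · exact ⟨G, Φ, RightResolver.id G, RightResolver.id_synchronizing G, fun _ => rfl, hb⟩
  push Not at hb
  obtain ⟨p₀, hp₀⟩ := hb
  -- two followers with the same image
  have hmaps : Set.MapsTo Φ.v (G.Followers p₀) (H.Followers (Φ.v p₀)) := by
    intro q hq; rw [followers_image]; exact ⟨q, hq, rfl⟩
  have hsurj : Set.SurjOn Φ.v (G.Followers p₀) (H.Followers (Φ.v p₀)) := by
    rw [followers_image]; exact Set.surjOn_image _ _
  have hninj : ¬ Set.InjOn Φ.v (G.Followers p₀) := fun h => hp₀ ⟨hmaps, h, hsurj⟩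
  unfold Set.InjOn at hninj
  push Not at hninj
  obtain ⟨q, ⟨f, hf1, hf2⟩, q', ⟨f', hf1', hf2'⟩, hqq, hne⟩ := hninj
  have hsg : H.src (Φ.e f) = Φ.v p₀ := by rw [Φ.src_comm, hf1]
  have hsg' : H.src (Φ.e f') = H.src (Φ.e f) := by rw [Φ.src_comm, Φ.src_comm, hf1, hf1']
  have htg' : H.tgt (Φ.e f') = H.tgt (Φ.e f) := by
    rw [Φ.tgt_comm, Φ.tgt_comm, hf2, hf2', hqq]
  have hact : Φ.act p₀ (Φ.e f) ≠ Φ.act p₀ (Φ.e f') := by
    have h1 := Φ.act_eq f
    have h2 := Φ.act_eq f'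
    rw [hf1] at h1
    rw [hf1'] at h2
    rw [h1, h2, hf2, hf2']; exact hne
  obtain ⟨Φ', hv, hst⟩ := hstep G Φ hG hgood p₀ _ _ hsg hsg' htg' hact
  have hlt := card_quot_lt Φ' hst
  rw [hn] at hlt
  obtain ⟨Q, Θ, Ψ, hΨ, hcomm, hbij⟩ := ih _ hlt Φ'.quot rfl (StronglyConnected.map Φ'.proj hG)
    Φ'.desc (himg G Φ'.quot Φ Φ'.proj Φ'.desc.v
      (fun p => by rw [Φ'.desc_proj_v p, hv]) hgood)
  refine ⟨Q, Θ, RightResolver.comp Ψ Φ'.proj,
    RightResolver.Synchronizing.comp hΨ Φ'.proj_synchronizing, fun p => ?_, hbij⟩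
  rw [RightResolver.comp_v, hcomm, Φ'.desc_proj_v, hv]

/-- the end vertices in `G` of the walk `K, β` of `H` -/
def WalkEnds {G H : Graph} (v : G.V → H.V) (K : H.V) (β : List H.V) : Set G.V :=
  {t | ∃ q, v q = K ∧ Along v q β t}

/-- The condition on a pair `(I, J)` of vertices of `H` (joined by at least two edges):
* `Good`, or
* some walk of `H` has between one and eight end vertices in `G`, or
* there are a vertex `K`, a sequence `K, J₁, …, Jₙ` of vertices of `H` in which no consecutive pair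
  joined by at least two edges occurs twice and in which the consecutive pair `(I, J)` does not
  occur, and a set `Z` of at most eight vertices of `G`, such that every vertex over `K` reaches
  some vertex of `Z` by a path of `G` over this sequence. -/
def Good8 {G H : Graph} (v : G.V → H.V) (I J : H.V) : Prop :=
  Good v I J ∨
  (∃ (K : H.V) (β : List H.V), (WalkEnds v K β).Nonempty ∧ (WalkEnds v K β).ncard ≤ 8) ∨
  (∃ (K : H.V) (β : List H.V) (Z : Set G.V),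
    ((K :: β).zip β).Pairwise (fun a b => a = b → H.mult a.1 a.2 ≤ 1) ∧
      (I, J) ∉ (K :: β).zip β ∧ Z.ncard ≤ 8 ∧
      ∀ q, v q = K → ∃ t ∈ Z, Along v q β t)

section
variable {G Q H : Graph}

lemma Good8.image (Ψ : RightResolver G Q) (θ : Q.V → H.V) (Φ : RightResolver G H)
    (hv : ∀ p, θ (Ψ.v p) = Φ.v p) (I J : H.V) (h : Good8 Φ.v I J) : Good8 θ I J := by
  rcases h with h | ⟨K, β, hne, hc⟩ | ⟨K, β, Z, h1, h2, h3, h4⟩
  · exact Or.inl (h.image Ψ θ Φ hv I J)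
  · have himg : WalkEnds θ K β = Ψ.v '' WalkEnds Φ.v K β := by
      ext t'
      constructor
      · rintro ⟨c, hc, hal⟩
        obtain ⟨q, rfl⟩ := Ψ.v_surj c
        obtain ⟨t, rfl, ht⟩ := along_lift Ψ θ Φ.v hv β q t' hal
        exact ⟨t, ⟨q, by rw [← hv]; exact hc, ht⟩, rfl⟩
      · rintro ⟨t, ⟨q, hq, hal⟩, rfl⟩
        exact ⟨Ψ.v q, by rw [hv]; exact hq, along_image Ψ θ Φ.v hv t β q hal⟩
    refine Or.inr (Or.inl ⟨K, β, ?_, ?_⟩)
    · rw [himg]; exact hne.image _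
    · rw [himg]; exact (Set.ncard_image_le (Set.toFinite _)).trans hc
  · refine Or.inr (Or.inr ⟨K, β, Ψ.v '' Z, h1, h2,
      (Set.ncard_image_le (Set.toFinite _)).trans h3, fun c hc => ?_⟩)
    obtain ⟨q, rfl⟩ := Ψ.v_surj c
    obtain ⟨t, ht, hal⟩ := h4 q (by rw [← hv]; exact hc)
    exact ⟨Ψ.v t, ⟨t, ht, rfl⟩, along_image Ψ θ Φ.v hv t β q hal⟩

/-- after a recolouring, `p₀` still has two parallel letters with different ends -/
lemma exists_pair (Φ Φ' : RightResolver G H) (hv : Φ'.v = Φ.v) {p₀ : G.V} {g g' : H.E}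
    (hsg : H.src g = Φ.v p₀) (hsg' : H.src g' = H.src g) (htg' : H.tgt g' = H.tgt g)
    (hne : Φ.act p₀ g ≠ Φ.act p₀ g') : ∃ e1 e2 : H.E, H.src e1 = H.src g ∧ H.tgt e1 = H.tgt g ∧
      H.src e2 = H.src g ∧ H.tgt e2 = H.tgt g ∧ Φ'.act p₀ e1 ≠ Φ'.act p₀ e2 := by
  have h1 : Φ.act p₀ g ∈ FollowersOver Φ.v p₀ (H.tgt g) :=
    (Φ.mem_followersOver _ _ _).2 ⟨g, hsg, rfl, rfl⟩
  have h2 : Φ.act p₀ g' ∈ FollowersOver Φ.v p₀ (H.tgt g) :=
    (Φ.mem_followersOver _ _ _).2 ⟨g', by rw [hsg', hsg], htg', rfl⟩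
  rw [← hv, Φ'.mem_followersOver, hv] at h1 h2
  obtain ⟨e1, a1, b1, c1⟩ := h1
  obtain ⟨e2, a2, b2, c2⟩ := h2
  refine ⟨e1, e2, by rw [a1, hsg], b1, by rw [a2, hsg], b2, ?_⟩
  rw [c1, c2]; exact hne

/-- the two adjacent colourings -/
lemma step_of_ends (Φ Φ' : RightResolver G H) (hG : G.StronglyConnected) (hv : Φ'.v = Φ.v)
    {p₀ : G.V} {g g' : H.E} (hsg : H.src g = Φ.v p₀) (hsg' : H.src g' = H.src g)
    (htg' : H.tgt g' = H.tgt g) (hne : Φ.act p₀ g ≠ Φ.act p₀ g') {K : H.V}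
    (hK : ∃ q, Φ.v q = K) {u : List H.E} (hu : Valid H.src H.tgt K u)
    (hc : ∀ e1 e2 : H.E, H.src e1 = H.src g → H.tgt e1 = H.tgt g → H.src e2 = H.src g →
      H.tgt e2 = H.tgt g → (ends Φ'.v Φ'.act e1 e2 K u).ncard ≤ 8) :
    ∃ Φ'' : RightResolver G H, Φ''.v = Φ.v ∧ ¬ NoStable H.src H.tgt Φ''.v Φ''.act := by
  obtain ⟨e1, e2, a1, b1, a2, b2, hne'⟩ := exists_pair Φ Φ' hv hsg hsg' htg' hne
  by_cases hno : NoStable H.src H.tgt Φ'.v Φ'.act
  · have h := flip_eight (x := p₀) (by rw [a1, a2]) (by rw [b1, b2]) Φ'.act_typed (Φ'.conn hG)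
      (by rw [a1, hsg, hv]) hne' (by rw [hv]; exact hK) hu (hc e1 e2 a1 b1 a2 b2) hno
    obtain ⟨Φ'', hv'', hact⟩ := Φ'.exists_flip (e1 := e1) (e2 := e2) (by rw [a1, a2])
      (by rw [b1, b2]) {p₀}
    exact ⟨Φ'', by rw [hv'', hv], by rw [hv'', hact]; exact h⟩
  · exact ⟨Φ', hv, hno⟩

theorem good8_step1 (Φ : RightResolver G H) (hG : G.StronglyConnected) (p₀ : G.V) (g g' : H.E)
    (hsg : H.src g = Φ.v p₀) (hsg' : H.src g' = H.src g) (htg' : H.tgt g' = H.tgt g)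
    (hne : Φ.act p₀ g ≠ Φ.act p₀ g') (hgood : Good8 Φ.v (H.src g) (H.tgt g)) :
    ∃ Φ' : RightResolver G H, Φ'.v = Φ.v ∧ ¬ NoStable H.src H.tgt Φ'.v Φ'.act := by
  rcases hgood with h | ⟨K, β, ⟨t, q, hq, hal⟩, hc⟩ | ⟨K, β, Z, h1, h2, h3, h4⟩
  · exact exists_recolor_stable Φ hG hsg hsg' htg' hne h
  · obtain ⟨u, hu, hβ⟩ := exists_word_walk Φ hal
    rw [hq] at hu
    refine step_of_ends Φ Φ hG rfl hsg hsg' htg' hne ⟨q, hq⟩ hu
      fun e1 e2 a1 b1 a2 b2 => ?_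
    refine (Set.ncard_le_ncard ?_ (Set.toFinite _)).trans hc
    have := ends_subset_walk Φ (e1 := e1) (e2 := e2) (by rw [a1, a2]) (by rw [b1, b2]) hu
    rw [hβ] at this
    exact this
  · obtain ⟨q, hq⟩ := Φ.v_surj K
    obtain ⟨t, ht, hal⟩ := h4 q hq
    obtain ⟨Φ', u, hv, hu, hrun, hlet⟩ := exists_alongZ Z β K Φ h1 ⟨q, hq, t, ht, hal⟩
    refine step_of_ends Φ Φ' hG hv hsg hsg' htg' hne ⟨q, hq⟩ hu
      fun e1 e2 a1 b1 a2 b2 => ?_
    refine (Set.ncard_le_ncard ?_ (Set.toFinite _)).trans h3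
    rintro z ⟨p, u', hp, hyb, rfl⟩
    have hav : ∀ e : H.E, H.src e = H.src g → H.tgt e = H.tgt g → e ∉ u := by
      intro e hse hte he
      have := hlet e he
      rw [hse, hte] at this
      exact h2 this
    rw [hyb_avoid (hav e1 a1 b1) (hav e2 a2 b2) hyb]
    rw [hv] at hp
    exact hrun p hp (h4 p hp)

theorem good8_step (Φ : RightResolver G H) (hG : G.StronglyConnected)
    (hgood : ∀ I J, 2 ≤ H.mult I J → Good8 Φ.v I J) (p₀ : G.V) (g g' : H.E)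
    (hsg : H.src g = Φ.v p₀) (hsg' : H.src g' = H.src g) (htg' : H.tgt g' = H.tgt g)
    (hne : Φ.act p₀ g ≠ Φ.act p₀ g') :
    ∃ Φ' : RightResolver G H, Φ'.v = Φ.v ∧ ¬ NoStable H.src H.tgt Φ'.v Φ'.act := by
  have hmult : 2 ≤ H.mult (H.src g) (H.tgt g) := by
    have h12 : g ≠ g' := fun h => hne (by rw [h])
    rw [← Set.ncard_pair h12]
    refine Set.ncard_le_ncard ?_ (Set.toFinite _)
    rintro x (rfl | rfl)
    · exact ⟨rfl, rfl⟩
    · exact ⟨hsg', htg'⟩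
  exact good8_step1 Φ hG p₀ g g' hsg hsg' htg' hne (hgood _ _ hmult)

end

/-- **Main theorem.** -/
theorem main8 (G B : Graph) (hG : G.StronglyConnected) (hB : IsBunchy B) (Φ : RightResolver G B)
    (hgood : ∀ I J, 2 ≤ B.mult I J → Good8 Φ.v I J) :
    ∃ H : Graph, IsBunchy H ∧ ∃ Ψ : RightResolver G H, Ψ.Synchronizing := by
  obtain ⟨Q, Θ, Ψ, hΨ, _, hbij⟩ := relative_of B
    (fun G v => ∀ I J, 2 ≤ B.mult I J → Good8 v I J)
    (fun G Q Φ Ψ θ hv h I J hIJ => (h I J hIJ).image Ψ θ Φ hv I J)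
    (fun G Φ hG h p₀ g g' hsg hsg' htg' hne => good8_step Φ hG h p₀ g g' hsg hsg' htg' hne)
    _ G rfl hG Φ hgood
  obtain ⟨M, hM, Λ, hΛ⟩ := hB
  refine ⟨Q, ⟨M, hM, RightResolver.comp Λ Θ, fun I => ?_⟩, Ψ, hΨ⟩
  exact (hΛ (Θ.v I)).comp (hbij I)

end Pool.Agent.H97.Bun
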