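import Pool.Agent.H97.Bun.Defs

set_option autoImplicit false

/-!
# Stationary weights: one exchange, uniqueness

Module of `MP_644d19_co` (balanced functions).

`stat_flip`: as `pr e1 = pr e2`, exchanging `e1` and `e2` at the states of `δ` does not change the
transition probabilities: for every `p`, `∑ e, if s e = σ p ∧ a' p e = q then pr e * μ p` is the
same for `a` and `a' = flip e1 e2 δ a` (substitute `e ↦ Equiv.swap e1 e2 e` at `p ∈ δ`:
`Equiv.sum_comp (Equiv.swap e1 e2)`, with `s_swap hs` and `pr (swap e) = pr e`).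

`stat_unique`: let `c = max μ' p / μ p` (`Finite.exists_max`), `ν p = c * μ p - μ' p ≥ 0`, with
`ν p₀ = 0`. If `ν q = 0` and `Step p q`, then by stationarity
`0 = ν q = ∑ p, ∑ e, if s e = σ p ∧ a p e = q then pr e * ν p else 0`, all terms are `≥ 0`, so the
term of `p` and the letter `e` of the step vanishes, `pr e > 0`, `ν p = 0`. By `hc p p₀`
(`Relation.ReflTransGen`, induction from the head: `Relation.ReflTransGen.head_induction_on`)
`ν p = 0` for all `p`.
-/

namespace Pool.Agent.H97.Bun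

open Pool.Agent.H75.Bunchy Pool.Agent.H26.Bunchy
open scoped Classical

variable {V K E : Type*} [Fintype V] [Fintype E] {s t : E → K} {σ : V → K} {a : V → E → V}
  {e1 e2 : E} {pr : E → ℝ} {μ μ' : V → ℝ}

lemma stat_flip (h : Stat s σ a pr μ) (hs : s e1 = s e2) (hpr : pr e1 = pr e2) (δ : Set V) :
    Stat s σ (flip e1 e2 δ a) pr μ := by
  refine ⟨h.pr_pos, h.mu_pos, fun q => ?_⟩
  rw [← h.stat q]
  refine Finset.sum_congr rfl fun p _ => ?_
  by_cases hp : p ∈ δ
  · rw [← Equiv.sum_comp (Equiv.swap e1 e2)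
      (fun e => if s e = σ p ∧ a p e = q then pr e * μ p else 0)]
    refine Finset.sum_congr rfl fun e _ => ?_
    have h2 : pr (Equiv.swap e1 e2 e) = pr e := s_swap (s := pr) hpr e
    rw [flip_of_mem hp, s_swap hs, h2]
  · refine Finset.sum_congr rfl fun e _ => ?_
    rw [flip_of_notMem hp]

lemma stat_unique (hc : Conn s σ a) (h : Stat s σ a pr μ) (h' : Stat s σ a pr μ') [Nonempty V] :
    ∃ c : ℝ, 0 < c ∧ ∀ p, μ' p = c * μ p := by
  obtain ⟨p₀, hp₀⟩ := Finite.exists_max (fun p => μ' p / μ p)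
  set c := μ' p₀ / μ p₀ with hc0
  have hcpos : 0 < c := div_pos (h'.mu_pos p₀) (h.mu_pos p₀)
  have hν : ∀ p, 0 ≤ c * μ p - μ' p := by
    intro p
    have h1 : μ' p / μ p ≤ c := hp₀ p
    have h2 := h.mu_pos p
    rw [div_le_iff₀ h2] at h1
    linarith
  have hν0 : c * μ p₀ - μ' p₀ = 0 := by
    rw [hc0, div_mul_cancel₀ _ (h.mu_pos p₀).ne', sub_self]
  have hstep : ∀ p q, Step s σ a p q → c * μ q - μ' q = 0 → c * μ p - μ' p = 0 := by
    rintro p q ⟨e, he, hq⟩ hz
    have h1 : ∑ p, ∑ e, (if s e = σ p ∧ a p e = q then pr e * (c * μ p - μ' p) else 0) = 0 := by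
      have h2 := h.stat q
      have h3 := h'.stat q
      have h4 : ∑ p, ∑ e, (if s e = σ p ∧ a p e = q then pr e * (c * μ p - μ' p) else 0) =
          c * (∑ p, ∑ e, (if s e = σ p ∧ a p e = q then pr e * μ p else 0)) -
            ∑ p, ∑ e, (if s e = σ p ∧ a p e = q then pr e * μ' p else 0) := by
        simp only [Finset.mul_sum, ← Finset.sum_sub_distrib]
        refine Finset.sum_congr rfl fun p _ => Finset.sum_congr rfl fun e _ => ?_
        split_ifs <;> ring
      rw [h4, h2, h3, hz]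
    have hnn : ∀ p e, 0 ≤ (if s e = σ p ∧ a p e = q then pr e * (c * μ p - μ' p) else 0) := by
      intro p e
      split_ifs
      · exact mul_nonneg (h.pr_pos e).le (hν p)
      · exact le_rfl
    have h4 := (Finset.sum_eq_zero_iff_of_nonneg
      (fun p _ => Finset.sum_nonneg fun e _ => hnn p e)).1 h1 p (Finset.mem_univ p)
    have h5 := (Finset.sum_eq_zero_iff_of_nonneg
      (fun e _ => hnn p e)).1 h4 e (Finset.mem_univ e)
    rw [if_pos ⟨he, hq⟩] at h5
    exact (mul_eq_zero.1 h5).resolve_left (h.pr_pos e).ne'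
  refine ⟨c, hcpos, fun p => ?_⟩
  have h6 : c * μ p - μ' p = 0 := by
    induction hc p p₀ using Relation.ReflTransGen.head_induction_on with
    | refl => exact hν0
    | head h1 _ ih => exact hstep _ _ h1 ih
  linarith

end Pool.Agent.H97.Bun
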