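import Pool.Agent.H97.Bun.COf

/-!
# Refining the types of an automaton

Module of `MP_644d19_co` (balanced functions). `(s, t, σ, a)` is a typed automaton and
`(s', t', σ', b)` another one on the same states, whose letters `f` act as the letters `φ f`, and whose
types are finer.

`lift_word`: induction on `v`: `e :: v` with `e` valid at `p`; `hlift` gives `f` with `s' f = σ' p`,
`φ f = e`, `b p f = a p e` (`hact`), `σ' (b p f) = t' f` (`hb`), and `v` is valid from
`t e = σ (a p e)`; use the induction hypothesis at the state `a p e = b p f`.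
`run_map`: induction on `v'` (`hact`, `ha`, `hb`).
`noStable_trans`: let `(p, q)` be stable for `b`. `σ p = σ q` by `hfine`. For `v` valid from `σ p`
take `v'` (`lift_word` at `p`), valid from `σ' p = σ' q`, then `u'` with
`run b p (v' ++ u') = run b q (v' ++ u')`, and `u = u'.map φ` (`run_map` at `p` and at `q`).
`conn_trans`: `Relation.ReflTransGen.mono`.
-/

set_option autoImplicit false

namespace Pool.Agent.H97.Bun

open Pool.Agent.H75.Bunchy Pool.Agent.H26.Bunchy
open scoped Classical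

variable {V K E K' E' : Type*} {s t : E → K} {σ : V → K} {a : V → E → V} {s' t' : E' → K'}
  {σ' : V → K'} {b : V → E' → V} {φ : E' → E}

lemma lift_word (ha : Typed s t σ a) (hb : Typed s' t' σ' b)
    (hact : ∀ p f, s' f = σ' p → s (φ f) = σ p ∧ b p f = a p (φ f))
    (hlift : ∀ p e, s e = σ p → ∃ f, s' f = σ' p ∧ φ f = e) (v : List E) (p : V)
    (hv : Valid s t (σ p) v) : ∃ v', Valid s' t' (σ' p) v' ∧ v'.map φ = v := by
  induction v generalizing p with
  | nil => exact ⟨[], trivial, rfl⟩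
  | cons e v ih =>
    obtain ⟨h1, h2⟩ := hv
    obtain ⟨f, hf1, hf2⟩ := hlift p e h1
    have hb1 : σ' (b p f) = t' f := hb p f hf1
    have hba : b p f = a p e := by rw [(hact p f hf1).2, hf2]
    have hty : σ (b p f) = t e := by rw [hba, ha p e h1]
    obtain ⟨v', hv', hm⟩ := ih (b p f) (by rw [hty]; exact h2)
    refine ⟨f :: v', ⟨hf1, by rw [← hb1]; exact hv'⟩, ?_⟩
    rw [List.map_cons, hf2, hm]

lemma run_map (ha : Typed s t σ a) (hb : Typed s' t' σ' b)
    (hact : ∀ p f, s' f = σ' p → s (φ f) = σ p ∧ b p f = a p (φ f)) (v' : List E') (p : V)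
    (hv : Valid s' t' (σ' p) v') :
    Valid s t (σ p) (v'.map φ) ∧ run b p v' = run a p (v'.map φ) := by
  induction v' generalizing p with
  | nil => exact ⟨trivial, rfl⟩
  | cons f v' ih =>
    obtain ⟨h1, h2⟩ := hv
    obtain ⟨h3, h4⟩ := hact p f h1
    have hb1 : σ' (b p f) = t' f := hb p f h1
    obtain ⟨i1, i2⟩ := ih (b p f) (by rw [hb1]; exact h2)
    have hty : σ (b p f) = t (φ f) := by rw [h4, ha p (φ f) h3]
    refine ⟨?_, ?_⟩
    · rw [List.map_cons, valid_cons]
      exact ⟨h3, by rw [← hty]; exact i1⟩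
    · rw [List.map_cons, run_cons, run_cons, i2, h4]

theorem noStable_trans (ha : Typed s t σ a) (hb : Typed s' t' σ' b)
    (hact : ∀ p f, s' f = σ' p → s (φ f) = σ p ∧ b p f = a p (φ f))
    (hlift : ∀ p e, s e = σ p → ∃ f, s' f = σ' p ∧ φ f = e)
    (hfine : ∀ p q, σ' p = σ' q → σ p = σ q) (hno : NoStable s t σ a) :
    NoStable s' t' σ' b := by
  intro p q h
  refine hno p q ⟨hfine p q h.1, fun v hv => ?_⟩
  obtain ⟨v', hv', rfl⟩ := lift_word ha hb hact hlift v p hv
  obtain ⟨u', hu', hrun⟩ := h.2 v' hv'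
  have hval : Valid s' t' (σ' p) (v' ++ u') := by
    rw [valid_append]; exact ⟨hv', hu'⟩
  obtain ⟨k1, k2⟩ := run_map ha hb hact (v' ++ u') p hval
  obtain ⟨_, k4⟩ := run_map ha hb hact (v' ++ u') q (by rw [← h.1]; exact hval)
  rw [List.map_append] at k1 k2 k4
  rw [valid_append] at k1
  exact ⟨u'.map φ, k1.2, by rw [← k2, ← k4, hrun]⟩

theorem conn_trans (hact : ∀ p f, s' f = σ' p → s (φ f) = σ p ∧ b p f = a p (φ f))
    (hlift : ∀ p e, s e = σ p → ∃ f, s' f = σ' p ∧ φ f = e) (hc : Conn s σ a) :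
    Conn s' σ' b := by
  intro p q
  refine Relation.ReflTransGen.mono (fun p q h => ?_) p q (hc p q)
  obtain ⟨e, he, hq⟩ := h
  obtain ⟨f, hf, hφ⟩ := hlift p e he
  exact ⟨f, hf, by rw [(hact p f hf).2, hφ, hq]⟩

/-- words that arise by exchanges: under the letter map -/
lemma hyb_map {e1 e2 : E} {e1' e2' : E'}
    (hφ : ∀ f, φ (Equiv.swap e1' e2' f) = φ f ∨ φ (Equiv.swap e1' e2' f) = Equiv.swap e1 e2 (φ f))
    {u' w' : List E'} (h : Hyb e1' e2' u' w') : Hyb e1 e2 (u'.map φ) (w'.map φ) := by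
  unfold Hyb at *
  rw [List.forall₂_map_left_iff, List.forall₂_map_right_iff]
  refine h.imp fun e f hef => ?_
  rcases hef with rfl | rfl
  · exact Or.inl rfl
  · exact hφ e

/-- letter probabilities depending only on the source type -/
lemma exists_pr [Fintype E] (s : E → K) : ∃ pr : E → ℝ, (∀ e, 0 < pr e) ∧
    (∀ e f, s e = s f → pr e = pr f) ∧
    ∀ k, (∃ e, s e = k) → ∑ e, (if s e = k then pr e else 0) = 1 := by
  refine ⟨fun e => ((Finset.univ.filter fun f => s f = s e).card : ℝ)⁻¹, fun e => ?_,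
    fun e f h => ?_, fun k hk => ?_⟩
  · have : 0 < (Finset.univ.filter fun f => s f = s e).card :=
      Finset.card_pos.2 ⟨e, Finset.mem_filter.2 ⟨Finset.mem_univ _, rfl⟩⟩
    have h2 : (0 : ℝ) < ((Finset.univ.filter fun f => s f = s e).card : ℝ) := by exact_mod_cast this
    exact inv_pos.2 h2
  · simp only [h]
  · obtain ⟨e₀, he₀⟩ := hk
    have hpos : 0 < (Finset.univ.filter fun f => s f = k).card :=
      Finset.card_pos.2 ⟨e₀, Finset.mem_filter.2 ⟨Finset.mem_univ _, he₀⟩⟩
    have h2 : ((Finset.univ.filter fun f => s f = k).card : ℝ) ≠ 0 := by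
      exact_mod_cast hpos.ne'
    have h3 : ∀ e ∈ Finset.univ.filter (fun f => s f = k),
        ((Finset.univ.filter fun f => s f = s e).card : ℝ)⁻¹ =
          ((Finset.univ.filter fun f => s f = k).card : ℝ)⁻¹ := by
      intro e he
      rw [(Finset.mem_filter.1 he).2]
    rw [← Finset.sum_filter, Finset.sum_congr rfl h3, Finset.sum_const, nsmul_eq_mul,
      mul_inv_cancel₀ h2]

/-- every state has a valid letter -/
lemma exists_letter (hc : Conn s σ a) {y y' : V} (hne : y ≠ y') (p : V) : ∃ e, s e = σ p := by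
  obtain ⟨q, hq⟩ : ∃ q, p ≠ q := by
    by_cases h : p = y
    · exact ⟨y', by rw [h]; exact hne⟩
    · exact ⟨y, h⟩
  rcases Relation.ReflTransGen.cases_head (hc p q) with h | ⟨c, ⟨e, he, _⟩, _⟩
  · exact absurd h hq
  · exact ⟨e, he⟩

end Pool.Agent.H97.Bun
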